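import Pool.Agent.Run7.h719.PC.Main
import Pool.Agent.Y749.Rig.FFf
import Pool.Agent.Results.MP_103a5c_nt.BeyondOne

/-!
# The form factor of the zeta zeros satisfies the hypotheses
-/

open MeasureTheory Set Filter Topology

namespace Run7.h719.PC

open Pool.Agent.Y749.Rig

lemma tt_tr {h : ℝ} (hh : 0 < h) (α : ℝ) : tt h α = h ^ 2 * tr h α := by
  unfold tt tr
  have e : h ^ 2 * (max 0 (1 - |α| / h) / h) = h * max 0 (1 - |α| / h) := by field_simp
  rw [e, mul_max_of_nonneg _ _ hh.le, mul_zero, mul_sub, mul_one]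
  congr 2
  field_simp

lemma cc_tr {h : ℝ} (hh : 0 < h) : h ^ 2 * cc (tr h) = h + h ^ 3 / 3 := by
  have h1 := tt_total (f := fun α => |α|) continuous_abs (fun x => abs_neg x) hh
  have e1 : ∫ α, tt h α * |α| = h ^ 2 * ∫ α, |α| * tr h α := by
    rw [← integral_const_mul]
    refine integral_congr_ae (ae_of_all _ fun α => ?_)
    show tt h α * |α| = _
    rw [tt_tr hh]
    ring
  have e2 : ∫ α in (0 : ℝ)..h, (h - α) * |α| = h ^ 3 / 6 := by
    have e3 : ∫ α in (0 : ℝ)..h, (h - α) * |α| = ∫ α in (0 : ℝ)..h, (h * α - α ^ 2) := by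
      refine intervalIntegral.integral_congr fun α hα => ?_
      rw [uIcc_of_le hh.le] at hα
      show (h - α) * |α| = _
      rw [abs_of_nonneg hα.1]
      ring
    rw [e3, intervalIntegral.integral_sub (by
      apply Continuous.intervalIntegrable; fun_prop) (by
      apply Continuous.intervalIntegrable; fun_prop), intervalIntegral.integral_const_mul,
      integral_id, integral_pow]
    norm_num
    ring
  have e0 : tr h 0 = 1 / h := by unfold tr; simp
  unfold cc
  rw [mul_add, ← e1, h1, e2, e0]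
  field_simp
  ring

lemma tent_pair {h : ℝ} (hh : 0 < h) (T : ℝ) :
    ∫ α in (0 : ℝ)..h, (h - α) * Fr T α = h ^ 2 / 2 * ∫ α, tr h α * Fr T α := by
  have h1 := tt_total (Fr_cont T) (Fr_even T) hh
  have e1 : ∫ α, tt h α * Fr T α = h ^ 2 * ∫ α, tr h α * Fr T α := by
    rw [← integral_const_mul]
    refine integral_congr_ae (ae_of_all _ fun α => ?_)
    show tt h α * Fr T α = _
    rw [tt_tr hh]
    ring
  linarith

theorem fam (RH : RiemannHypothesis) : Fam atTop Fr where
  cont := Fr_cont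
  nn := (eventually_ge_atTop 10).mono fun T hT α => Fr_nonneg hT α
  tent := by
    intro h hh h1
    have t := (Fr_lim (tr_int hh) (fl_qd (adm_tr hh)) le_rfl
      (test_limRH RH (adm_tr hh) hh h1)).const_mul (h ^ 2 / 2)
    have e : h ^ 2 / 2 * cc (tr h) = h / 2 + h ^ 3 / 6 := by
      have := cc_tr hh
      linarith
    rw [e] at t
    exact t.congr fun T => (tent_pair hh T).symm

lemma Fr_bdd (T : ℝ) : ∃ C : ℝ, ∀ α, |Fr T α| ≤ C := by
  have := Mp_fin T
  refine ⟨(Mp T).real univ, fun α => ?_⟩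
  unfold Fr
  refine (abs_integral_le_integral_abs).trans ?_
  have h1 : ∫ x, |Real.cos (2 * Real.pi * α * x) * ww (2 * Real.pi * x / Real.log T)| ∂(Mp T) ≤
      ∫ _x, (1 : ℝ) ∂(Mp T) := by
    refine integral_mono_of_nonneg (ae_of_all _ fun x => abs_nonneg _) (integrable_const _)
      (ae_of_all _ fun x => ?_)
    show |Real.cos _ * ww _| ≤ 1
    rw [abs_mul, abs_of_pos (ww_pos _)]
    have h1 := Real.abs_cos_le_one (2 * Real.pi * α * x)
    have h2 := ww_le (2 * Real.pi * x / Real.log T)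
    have h3 := ww_pos (2 * Real.pi * x / Real.log T)
    nlinarith [abs_nonneg (Real.cos (2 * Real.pi * α * x))]
  refine h1.trans (le_of_eq ?_)
  simp

/-- positivity: a test function with nonnegative transform -/
lemma pos_pair {ψ : ℝ → ℝ} (hψ : Integrable ψ) (h0 : ∀ x, 0 ≤ fl ψ x) {ε : ℝ} (hε : 0 < ε) :
    ∀ᶠ T in atTop, (1 - ε) * ∫ α, ψ α ≤ ∫ α, ψ α * Fr T α := by
  filter_upwards [Mp_zero hε] with T h1
  have hfin := Mp_fin T
  rw [Fr_pair hψ]
  have e0 : fl ψ 0 = ∫ α, ψ α := by unfold fl; simp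
  have e : (Mp T).real {0} * fl ψ 0 = ∫ x in ({0} : Set ℝ), fl ψ x *
      ww (2 * Real.pi * x / Real.log T) ∂(Mp T) := by
    rw [integral_singleton, mul_zero, zero_div, ww_zero, mul_one, smul_eq_mul]
  have hb : ∀ x, |fl ψ x| ≤ ∫ α, |ψ α| := by
    intro x
    unfold fl
    refine (abs_integral_le_integral_abs).trans ?_
    refine integral_mono_of_nonneg (ae_of_all _ fun x => abs_nonneg _) hψ.abs
      (ae_of_all _ fun α => ?_)
    show |ψ α * _| ≤ |ψ α|
    rw [abs_mul]
    exact mul_le_of_le_one_right (abs_nonneg _) (Real.abs_cos_le_one _)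
  have hint : Integrable (fun x => fl ψ x * ww (2 * Real.pi * x / Real.log T)) (Mp T) := by
    refine Integrable.mono' (integrable_const (∫ α, |ψ α|)) ?_ (ae_of_all _ fun x => ?_)
    · have h2 := ww_cont
      have h3 := fl_cont hψ
      apply Continuous.aestronglyMeasurable
      fun_prop
    · rw [Real.norm_eq_abs, abs_mul, abs_of_pos (ww_pos _)]
      exact (mul_le_of_le_one_right (abs_nonneg _) (ww_le _)).trans (hb x)
  have h2 : (Mp T).real {0} * fl ψ 0 ≤ ∫ x, fl ψ x * ww (2 * Real.pi * x / Real.log T) ∂(Mp T) := by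
    rw [e]
    exact setIntegral_le_integral hint (ae_of_all _ fun x => mul_nonneg (h0 x) (ww_pos _).le)
  refine le_trans ?_ h2
  rw [← e0]
  exact mul_le_mul_of_nonneg_right h1 (h0 0)

lemma psi_pair {ε : ℝ} (hε : 0 < ε) : ∀ᶠ T in atTop, Integrable (fun α => psi α * Fr T α) ∧
    (1 - ε) * (35 / 9) ≤ ∫ α, psi α * Fr T α := by
  filter_upwards [pos_pair psi_int psi_fl_nonneg hε] with T h1
  rw [psi_total] at h1
  obtain ⟨C, hC⟩ := Fr_bdd T
  exact ⟨psi_int.mul_bdd (c := C) (Fr_cont T).aestronglyMeasurable (ae_of_all _ fun α => hC α), h1⟩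

/-- shifted tents -/
lemma shift {h : ℝ} (hh : 0 < h) (T b : ℝ) :
    TM h (Fr T) b ≤ ∫ α, tt h α * Fr T α := by
  have hfin := Mp_fin T
  have hA := adm_tr hh
  have hM := adm_modu hA b
  have i1 : Integrable fun α => tr h (α - b) * Fr T α := by
    have := (tent_int (Fr_cont T) h b).const_mul (1 / h ^ 2)
    refine this.congr (ae_of_all _ fun α => ?_)
    show 1 / h ^ 2 * (tt h (α - b) * Fr T α) = _
    rw [tt_tr hh]
    field_simp
  have i2 : Integrable fun α => tr h (α + b) * Fr T α := by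
    have := i1.comp_neg
    refine this.congr (ae_of_all _ fun α => ?_)
    show tr h (-α - b) * Fr T (-α) = tr h (α + b) * Fr T α
    rw [Fr_even, show -α - b = -(α + b) by ring, tr_even]
  have e1 : TM h (Fr T) b = h ^ 2 * ∫ α, tr h (α - b) * Fr T α := by
    unfold TM
    rw [← integral_const_mul]
    refine integral_congr_ae (ae_of_all _ fun α => ?_)
    show tt h (α - b) * Fr T α = _
    rw [tt_tr hh]
    ring
  have e2 : ∫ α, tt h α * Fr T α = h ^ 2 * ∫ α, tr h α * Fr T α := by
    rw [← integral_const_mul]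
    refine integral_congr_ae (ae_of_all _ fun α => ?_)
    show tt h α * Fr T α = _
    rw [tt_tr hh]
    ring
  have e3 : ∫ α, tr h (α + b) * Fr T α = ∫ α, tr h (α - b) * Fr T α := by
    rw [← integral_neg_eq_self (fun α => tr h (α - b) * Fr T α)]
    refine integral_congr_ae (ae_of_all _ fun α => ?_)
    show tr h (α + b) * Fr T α = tr h (-α - b) * Fr T (-α)
    rw [Fr_even, show -α - b = -(α + b) by ring, tr_even]
  have e4 : ∫ α, modu b (tr h) α * Fr T α = ∫ α, tr h (α - b) * Fr T α := by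
    have : ∀ α, modu b (tr h) α * Fr T α = 1 / 2 * (tr h (α - b) * Fr T α +
        tr h (α + b) * Fr T α) := by
      intro α
      unfold modu
      ring
    simp_rw [this]
    rw [integral_const_mul, integral_add i1 i2, e3]
    ring
  rw [e1, e2, ← e4, Fr_pair hM.int, Fr_pair hA.int]
  apply mul_le_mul_of_nonneg_left _ (by positivity)
  have hb : ∀ {φ : ℝ → ℝ}, Integrable φ →
      Integrable (fun x => fl φ x * ww (2 * Real.pi * x / Real.log T)) (Mp T) := by
    intro φ hφ
    have hb : ∀ x, |fl φ x| ≤ ∫ α, |φ α| := by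
      intro x
      unfold fl
      refine (abs_integral_le_integral_abs).trans ?_
      refine integral_mono_of_nonneg (ae_of_all _ fun x => abs_nonneg _) hφ.abs
        (ae_of_all _ fun α => ?_)
      show |φ α * _| ≤ |φ α|
      rw [abs_mul]
      exact mul_le_of_le_one_right (abs_nonneg _) (Real.abs_cos_le_one _)
    refine Integrable.mono' (integrable_const (∫ α, |φ α|)) ?_ (ae_of_all _ fun x => ?_)
    · have h2 := ww_cont
      have h3 := fl_cont hφ
      apply Continuous.aestronglyMeasurable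
      fun_prop
    · rw [Real.norm_eq_abs, abs_mul, abs_of_pos (ww_pos _)]
      exact (mul_le_of_le_one_right (abs_nonneg _) (ww_le _)).trans (hb x)
  refine integral_mono (hb hM.int) (hb hA.int) fun x => ?_
  show fl (modu b (tr h)) x * _ ≤ fl (tr h) x * _
  apply mul_le_mul_of_nonneg_right _ (ww_pos _).le
  rw [fl_modu hA]
  exact mul_le_of_le_one_right (fl_tr_nonneg hh x) (Real.cos_le_one _)

/-- the bounds for the form factor -/
theorem zeta_bounds (RH : RiemannHypothesis)
    (hB : ∀ ε : ℝ, 0 < ε → ∀ᶠ T in atTop, ∀ α ∈ Icc (1 : ℝ) (3 / 2), 3 / 2 - α - ε ≤ Fr T α)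
    {κ : ℝ} (h0 : 0 < κ) (h1 : κ < 1) :
    ∀ᶠ T in atTop, IntegrableOn (fun α => 1 / α ^ 2 * Fr T α) (Ioi κ) ∧
      Real.log (1 / κ) + 92 / 100 ≤ ∫ α in Ioi κ, 1 / α ^ 2 * Fr T α ∧
      ∫ α in Ioi κ, 1 / α ^ 2 * Fr T α ≤ Real.log (1 / κ) + 182 / 100 :=
  two_sided (fam RH) Fr_even (fun ε hε => psi_pair hε) hB
    (fun h hh => Eventually.of_forall fun T b => shift hh T b) h0 h1

end Run7.h719.PC
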