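import Mathlib

/-!
# From tents to all weights

If `∫_0^h (h - α) G_T(α) dα → h/2 + h³/6` for all `h ∈ (0, 1)` and `G_T ≥ 0`, then
`∫_0^b w G_T → w(0)/2 + ∫_0^b α w(α) dα` for all `b ∈ (0, 1)` and all `C¹` weights `w`.
-/

open MeasureTheory Set Filter Topology

namespace Run7.h719.PC

/-- the family -/
structure Fam (l : Filter ℝ) (G : ℝ → ℝ → ℝ) : Prop where
  cont : ∀ T, Continuous (G T)
  nn : ∀ᶠ T in l, ∀ α, 0 ≤ G T α
  tent : ∀ h, 0 < h → h < 1 →
    Tendsto (fun T => ∫ α in (0 : ℝ)..h, (h - α) * G T α) l (𝓝 (h / 2 + h ^ 3 / 6))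

variable {l : Filter ℝ} {G : ℝ → ℝ → ℝ}

lemma step_up {g : ℝ → ℝ} (hg : Continuous g) (h0 : ∀ α, 0 ≤ g α) {b c : ℝ} (hbc : b ≤ c) :
    (c - b) * ∫ α in (0 : ℝ)..b, g α ≤
      (∫ α in (0 : ℝ)..c, (c - α) * g α) - ∫ α in (0 : ℝ)..b, (b - α) * g α := by
  have c1 : Continuous fun α => (c - α) * g α := by fun_prop
  have c2 : Continuous fun α => (b - α) * g α := by fun_prop
  rw [← intervalIntegral.integral_add_adjacent_intervals (b := b) (c := c)
    (c1.intervalIntegrable _ _) (c1.intervalIntegrable _ _)]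
  have h1 : 0 ≤ ∫ α in b..c, (c - α) * g α :=
    intervalIntegral.integral_nonneg hbc fun α hα => mul_nonneg (by linarith [hα.2]) (h0 α)
  have h2 : (∫ α in (0 : ℝ)..b, (c - α) * g α) - ∫ α in (0 : ℝ)..b, (b - α) * g α =
      (c - b) * ∫ α in (0 : ℝ)..b, g α := by
    rw [← intervalIntegral.integral_sub (c1.intervalIntegrable _ _) (c2.intervalIntegrable _ _),
      ← intervalIntegral.integral_const_mul]
    exact intervalIntegral.integral_congr fun α _ => by ring
  linarith

lemma step_down {g : ℝ → ℝ} (hg : Continuous g) (h0 : ∀ α, 0 ≤ g α) {b c : ℝ} (hcb : c ≤ b) :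
    (∫ α in (0 : ℝ)..b, (b - α) * g α) - (∫ α in (0 : ℝ)..c, (c - α) * g α) ≤
      (b - c) * ∫ α in (0 : ℝ)..b, g α := by
  have c1 : Continuous fun α => (c - α) * g α := by fun_prop
  have c2 : Continuous fun α => (b - α) * g α := by fun_prop
  have e : ∫ α in (0 : ℝ)..c, (c - α) * g α =
      (∫ α in (0 : ℝ)..b, (c - α) * g α) - ∫ α in c..b, (c - α) * g α := by
    rw [← intervalIntegral.integral_add_adjacent_intervals (b := c) (c := b)
      (c1.intervalIntegrable _ _) (c1.intervalIntegrable _ _)]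
    ring
  have h1 : ∫ α in c..b, (c - α) * g α ≤ 0 := by
    have : 0 ≤ ∫ α in c..b, -((c - α) * g α) :=
      intervalIntegral.integral_nonneg hcb fun α hα => by
        have := mul_nonneg (show 0 ≤ α - c by linarith [hα.1]) (h0 α)
        linarith
    rw [intervalIntegral.integral_neg] at this
    linarith
  have h2 : (∫ α in (0 : ℝ)..b, (b - α) * g α) - ∫ α in (0 : ℝ)..b, (c - α) * g α =
      (b - c) * ∫ α in (0 : ℝ)..b, g α := by
    rw [← intervalIntegral.integral_sub (c2.intervalIntegrable _ _) (c1.intervalIntegrable _ _),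
      ← intervalIntegral.integral_const_mul]
    exact intervalIntegral.integral_congr fun α _ => by ring
  linarith

/-- the distribution function -/
theorem Fam.mass (hG : Fam l G) {b : ℝ} (hb : 0 < b) (hb1 : b < 1) :
    Tendsto (fun T => ∫ α in (0 : ℝ)..b, G T α) l (𝓝 ((1 + b ^ 2) / 2)) := by
  rw [tendsto_order]
  constructor
  · intro u hu
    -- choose c < b close to b
    obtain ⟨c, hc⟩ : ∃ c : ℝ, c = max (b / 2) (b - ((1 + b ^ 2) / 2 - u) / 2) := ⟨_, rfl⟩
    have hc1 : b / 2 ≤ c := by rw [hc]; exact le_max_left _ _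
    have hc2 : b - ((1 + b ^ 2) / 2 - u) / 2 ≤ c := by rw [hc]; exact le_max_right _ _
    have hc3 : c < b := by
      rw [hc]
      exact max_lt (by linarith) (by linarith)
    have hc0 : 0 < c := by linarith
    have t := (hG.tent b hb hb1).sub (hG.tent c hc0 (by linarith))
    have key : (b - c) * u < b / 2 + b ^ 3 / 6 - (c / 2 + c ^ 3 / 6) := by
      have e : b / 2 + b ^ 3 / 6 - (c / 2 + c ^ 3 / 6) =
          (b - c) * (1 / 2 + (b ^ 2 + b * c + c ^ 2) / 6) := by ring
      rw [e]
      apply mul_lt_mul_of_pos_left _ (by linarith)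
      have h1 : (b - c) * (b + c) ≤ (b - c) * 2 := by
        apply mul_le_mul_of_nonneg_left _ (by linarith)
        linarith
      have h2 : b - c ≤ ((1 + b ^ 2) / 2 - u) / 2 := by linarith
      nlinarith [sq_nonneg (b - c)]
    filter_upwards [t.eventually (lt_mem_nhds key), hG.nn] with T h1 h2
    have h3 := step_down (hG.cont T) h2 hc3.le
    have h4 : (b - c) * u < (b - c) * ∫ α in (0 : ℝ)..b, G T α := lt_of_lt_of_le h1 h3
    exact lt_of_mul_lt_mul_left h4 (by linarith)
  · intro u hu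
    obtain ⟨c, hc⟩ : ∃ c : ℝ, c = min ((1 + b) / 2) (b + (u - (1 + b ^ 2) / 2) / 2) := ⟨_, rfl⟩
    have hc1 : c ≤ (1 + b) / 2 := by rw [hc]; exact min_le_left _ _
    have hc2 : c ≤ b + (u - (1 + b ^ 2) / 2) / 2 := by rw [hc]; exact min_le_right _ _
    have hc3 : b < c := by
      rw [hc]
      exact lt_min (by linarith) (by linarith)
    have t := (hG.tent c (by linarith) (by linarith)).sub (hG.tent b hb hb1)
    have key : c / 2 + c ^ 3 / 6 - (b / 2 + b ^ 3 / 6) < (c - b) * u := by
      have e : c / 2 + c ^ 3 / 6 - (b / 2 + b ^ 3 / 6) =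
          (c - b) * (1 / 2 + (b ^ 2 + b * c + c ^ 2) / 6) := by ring
      rw [e]
      apply mul_lt_mul_of_pos_left _ (by linarith)
      have h1 : (c - b) * (b + c) ≤ (c - b) * 2 := by
        apply mul_le_mul_of_nonneg_left _ (by linarith)
        linarith
      have h2 : c - b ≤ (u - (1 + b ^ 2) / 2) / 2 := by linarith
      nlinarith [sq_nonneg (b - c)]
    filter_upwards [t.eventually (gt_mem_nhds key), hG.nn] with T h1 h2
    have h3 := step_up (hG.cont T) h2 hc3.le
    have h4 : (c - b) * ∫ α in (0 : ℝ)..b, G T α < (c - b) * u := lt_of_le_of_lt h3 h1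
    exact lt_of_mul_lt_mul_left h4 (by linarith)

/-- weights -/
theorem Fam.weight [l.IsCountablyGenerated] (hG : Fam l G) {a b ma : ℝ} (ha : 0 ≤ a) (hab : a < b)
    (hb1 : b < 1) {w w' : ℝ → ℝ} (hw : ∀ x ∈ Icc a b, HasDerivAt w (w' x) x)
    (hw' : ContinuousOn w' (Icc a b))
    (hma : Tendsto (fun T => ∫ α in (0 : ℝ)..a, G T α) l (𝓝 ma)) :
    Tendsto (fun T => ∫ α in a..b, w α * G T α) l
      (𝓝 ((∫ α in a..b, α * w α) + w a * ((1 + a ^ 2) / 2 - ma))) := by
  have hb : 0 < b := by linarith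
  have huIcc : uIcc a b = Icc a b := uIcc_of_le hab.le
  have hwc : ContinuousOn w (Icc a b) := fun x hx => (hw x hx).continuousAt.continuousWithinAt
  have hw'i : IntervalIntegrable w' volume a b := by
    apply ContinuousOn.intervalIntegrable
    rwa [huIcc]
  -- integration by parts
  have hM : ∀ T x, HasDerivAt (fun y => ∫ α in (0 : ℝ)..y, G T α) (G T x) x := by
    intro T x
    exact intervalIntegral.integral_hasDerivAt_right ((hG.cont T).intervalIntegrable _ _)
      (hG.cont T).stronglyMeasurable.stronglyMeasurableAtFilter (hG.cont T).continuousAt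
  have ibp : ∀ T, ∫ α in a..b, w α * G T α =
      w b * (∫ α in (0 : ℝ)..b, G T α) - w a * (∫ α in (0 : ℝ)..a, G T α) -
        ∫ x in a..b, w' x * ∫ α in (0 : ℝ)..x, G T α := by
    intro T
    exact intervalIntegral.integral_mul_deriv_eq_deriv_mul (fun x hx => hw x (huIcc ▸ hx))
      (fun x _ => hM T x) hw'i ((hG.cont T).intervalIntegrable _ _)
  simp_rw [ibp]
  have t1 := hG.mass hb hb1
  -- dominated convergence
  have t3 : Tendsto (fun T => ∫ x in a..b, w' x * ∫ α in (0 : ℝ)..x, G T α) l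
      (𝓝 (∫ x in a..b, w' x * ((1 + x ^ 2) / 2))) := by
    refine intervalIntegral.tendsto_integral_filter_of_dominated_convergence
      (fun x => |w' x| * 2) ?_ ?_ ?_ ?_
    · refine Eventually.of_forall fun T => ?_
      rw [uIoc_of_le hab.le]
      have h1 : Continuous fun y => ∫ α in (0 : ℝ)..y, G T α :=
        continuous_iff_continuousAt.2 fun x => (hM T x).continuousAt
      exact ((hw'.mul h1.continuousOn).mono Ioc_subset_Icc_self).aestronglyMeasurable
        measurableSet_Ioc
    · have h1 := t1.eventually (ge_mem_nhds (show (1 + b ^ 2) / 2 < 2 by nlinarith))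
      filter_upwards [h1, hG.nn] with T h2 h3
      refine ae_of_all _ fun x hx => ?_
      rw [uIoc_of_le hab.le] at hx
      have hx0 : 0 ≤ x := by linarith [hx.1]
      have h4 : 0 ≤ ∫ α in (0 : ℝ)..x, G T α :=
        intervalIntegral.integral_nonneg hx0 fun α _ => h3 α
      have h5 : ∫ α in (0 : ℝ)..x, G T α ≤ ∫ α in (0 : ℝ)..b, G T α := by
        rw [← intervalIntegral.integral_add_adjacent_intervals (b := x) (c := b)
          ((hG.cont T).intervalIntegrable _ _) ((hG.cont T).intervalIntegrable _ _)]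
        have : 0 ≤ ∫ α in x..b, G T α :=
          intervalIntegral.integral_nonneg hx.2 fun α _ => h3 α
        linarith
      rw [Real.norm_eq_abs, abs_mul, abs_of_nonneg h4]
      exact mul_le_mul_of_nonneg_left (h5.trans h2) (abs_nonneg _)
    · exact (hw'i.norm.mul_const 2)
    · refine ae_of_all _ fun x hx => ?_
      rw [uIoc_of_le hab.le] at hx
      exact (hG.mass (by linarith [hx.1]) (by linarith [hx.2])).const_mul (w' x)
  have t4 := ((t1.const_mul (w b)).sub (hma.const_mul (w a))).sub t3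
  have e : w b * ((1 + b ^ 2) / 2) - w a * ma - ∫ x in a..b, w' x * ((1 + x ^ 2) / 2) =
      (∫ α in a..b, α * w α) + w a * ((1 + a ^ 2) / 2 - ma) := by
    have h1 : ∀ x ∈ uIcc a b, HasDerivAt (fun x : ℝ => (1 + x ^ 2) / 2) x x := by
      intro x _
      have := ((hasDerivAt_pow 2 x).const_add 1).div_const 2
      exact this.congr_deriv (by push_cast; ring)
    have h2 := intervalIntegral.integral_mul_deriv_eq_deriv_mul (fun x hx => hw x (huIcc ▸ hx))
      h1 hw'i (continuous_id.intervalIntegrable a b)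
    have h3 : ∫ α in a..b, α * w α = ∫ α in a..b, w α * α :=
      intervalIntegral.integral_congr fun α _ => mul_comm _ _
    rw [h3]
    have h4 : ∫ α in a..b, w α * α = w b * ((1 + b ^ 2) / 2) - w a * ((1 + a ^ 2) / 2) -
        ∫ x in a..b, w' x * ((1 + x ^ 2) / 2) := h2
    rw [h4]
    ring
  rw [e] at t4
  exact t4

/-- weights on `[0, b]` -/
theorem Fam.weight0 [l.IsCountablyGenerated] (hG : Fam l G) {b : ℝ} (hb : 0 < b)
    (hb1 : b < 1) {w w' : ℝ → ℝ} (hw : ∀ x ∈ Icc 0 b, HasDerivAt w (w' x) x)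
    (hw' : ContinuousOn w' (Icc 0 b)) :
    Tendsto (fun T => ∫ α in (0 : ℝ)..b, w α * G T α) l
      (𝓝 ((∫ α in (0 : ℝ)..b, α * w α) + w 0 / 2)) := by
  have h := hG.weight (ma := 0) le_rfl hb hb1 hw hw' (by simpa using tendsto_const_nhds)
  have e : w 0 * ((1 + (0 : ℝ) ^ 2) / 2 - 0) = w 0 / 2 := by ring
  rwa [e] at h

/-- weights on `[a, b]` -/
theorem Fam.weight1 [l.IsCountablyGenerated] (hG : Fam l G) {a b : ℝ} (ha : 0 < a) (hab : a < b)
    (hb1 : b < 1) {w w' : ℝ → ℝ} (hw : ∀ x ∈ Icc a b, HasDerivAt w (w' x) x)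
    (hw' : ContinuousOn w' (Icc a b)) :
    Tendsto (fun T => ∫ α in a..b, w α * G T α) l (𝓝 (∫ α in a..b, α * w α)) := by
  have h := hG.weight ha.le hab hb1 hw hw' (hG.mass ha (by linarith))
  simpa using h

/-- the first moment -/
theorem Fam.first (hG : Fam l G) {b : ℝ} (hb : 0 < b) (hb1 : b < 1) :
    Tendsto (fun T => ∫ α in (0 : ℝ)..b, α * G T α) l (𝓝 (b ^ 3 / 3)) := by
  have h := ((hG.mass hb hb1).const_mul b).sub (hG.tent b hb hb1)
  have e : b * ((1 + b ^ 2) / 2) - (b / 2 + b ^ 3 / 6) = b ^ 3 / 3 := by ring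
  rw [e] at h
  refine h.congr fun T => ?_
  have c1 : Continuous fun α => b * G T α := continuous_const.mul (hG.cont T)
  have c2 : Continuous fun α => (b - α) * G T α := by
    have := hG.cont T
    fun_prop
  rw [← intervalIntegral.integral_const_mul,
    ← intervalIntegral.integral_sub (c1.intervalIntegrable _ _) (c2.intervalIntegrable _ _)]
  exact intervalIntegral.integral_congr fun α _ => by ring

end Run7.h719.PC
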