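import Mathlib

/-!
# A majorant of `α⁻²` by tents of half-width `h` centred at `h/2, h, 2h, 3h, …`
-/

open MeasureTheory Set Filter Topology

namespace Run7.h719.PC

/-- the tent -/
noncomputable def tt (h u : ℝ) : ℝ := max 0 (h - |u|)

lemma tt_nonneg (h u : ℝ) : 0 ≤ tt h u := le_max_left _ _

lemma tt_cont (h : ℝ) : Continuous (tt h) := by
  unfold tt
  fun_prop

lemma tt_supp (h b : ℝ) : HasCompactSupport fun α => tt h (α - b) := by
  refine HasCompactSupport.of_support_subset_isCompact (isCompact_Icc (a := b - h) (b := b + h)) ?_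
  intro x hx
  by_contra hcon
  apply hx
  show tt h (x - b) = 0
  unfold tt
  rw [max_eq_left]
  by_contra h2
  push Not at h2
  have h3 : |x - b| < h := by linarith
  obtain ⟨h4, h5⟩ := abs_lt.1 h3
  exact hcon ⟨by linarith, by linarith⟩

lemma chord {a s : ℝ} (ha : 1 ≤ a) (h0 : 0 ≤ s) (h1 : s ≤ 1) :
    1 / (a + s) ^ 2 ≤ 1 / a ^ 2 * (1 - s) + 1 / (a + 1) ^ 2 * s := by
  have ha0 : 0 < a := by linarith
  have has : 0 < a + s := by linarith
  have e : 1 / a ^ 2 * (1 - s) + 1 / (a + 1) ^ 2 * s - 1 / (a + s) ^ 2 =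
      s * (3 * a ^ 2 * (1 - s) + 2 * a * (1 - s ^ 2) + s * (1 - s)) /
        (a ^ 2 * (a + 1) ^ 2 * (a + s) ^ 2) := by
    field_simp
    ring
  have h2 : 0 ≤ 1 - s := by linarith
  have h3 : 0 ≤ 1 - s ^ 2 := by nlinarith
  have : 0 ≤ s * (3 * a ^ 2 * (1 - s) + 2 * a * (1 - s ^ 2) + s * (1 - s)) /
        (a ^ 2 * (a + 1) ^ 2 * (a + s) ^ 2) := by positivity
  linarith

lemma sq_maj (n : ℕ) : ∀ u : ℝ, 1 ≤ u → u ≤ n + 1 →
    1 / u ^ 2 ≤ 13 / 18 * tt 1 (u - 1 / 2) + 23 / 36 * tt 1 (u - 1) +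
      ∑ k ∈ Finset.range n, 1 / ((k : ℝ) + 2) ^ 2 * tt 1 (u - (k + 2)) := by
  have hs : ∀ (n : ℕ) (u : ℝ), 0 ≤ ∑ k ∈ Finset.range n, 1 / ((k : ℝ) + 2) ^ 2 *
      tt 1 (u - (k + 2)) := fun n u => Finset.sum_nonneg fun k _ =>
        mul_nonneg (by positivity) (tt_nonneg _ _)
  induction n with
  | zero =>
    intro u h1 h2
    have hu : u = 1 := le_antisymm (by simpa using h2) h1
    rw [hu]
    unfold tt
    norm_num [abs_of_pos]
  | succ n ih =>
    intro u h1 h2
    push_cast at h2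
    rcases le_or_gt u (n + 1) with h | h
    · refine (ih u h1 h).trans ?_
      rw [Finset.sum_range_succ]
      have : 0 ≤ 1 / ((n : ℝ) + 2) ^ 2 * tt 1 (u - (n + 2)) :=
        mul_nonneg (by positivity) (tt_nonneg _ _)
      linarith
    · rcases Nat.eq_zero_or_pos n with hn | hn
      · subst hn
        simp only [Nat.cast_zero, zero_add] at h h2 ⊢
        rw [Finset.sum_range_one]
        simp only [Nat.cast_zero, zero_add]
        have e2 : tt 1 (u - 2) = u - 1 := by
          unfold tt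
          rw [abs_of_nonpos (by linarith), max_eq_right (by linarith)]
          ring
        have e1 : tt 1 (u - 1) = 2 - u := by
          unfold tt
          rw [abs_of_nonneg (by linarith), max_eq_right (by linarith)]
          ring
        rw [e1, e2, div_le_iff₀ (by positivity)]
        rcases le_total u (3 / 2) with h3 | h3
        · have e0 : tt 1 (u - 1 / 2) = 3 / 2 - u := by
            unfold tt
            rw [abs_of_nonneg (by linarith), max_eq_right (by linarith)]
            ring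
          rw [e0]
          have h4 : 0 ≤ (u - 1) * (3 - 2 * u) * (5 * u + 3) :=
            mul_nonneg (mul_nonneg (by linarith) (by linarith)) (by linarith)
          nlinarith
        · have h4 : 0 ≤ (2 * u - 3) * (2 - u) * (7 * u + 6) :=
            mul_nonneg (mul_nonneg (by linarith) (by linarith)) (by linarith)
          have h5 : 0 ≤ 13 / 18 * tt 1 (u - 1 / 2) * u ^ 2 :=
            mul_nonneg (mul_nonneg (by norm_num) (tt_nonneg _ _)) (sq_nonneg _)
          nlinarith
      · obtain ⟨m, rfl⟩ : ∃ m, n = m + 1 := ⟨n - 1, by omega⟩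
        push_cast at h h2
        rw [Finset.sum_range_succ, Finset.sum_range_succ]
        have ea : tt 1 (u - ((m : ℝ) + 2)) = 1 - (u - (m + 2)) := by
          unfold tt
          rw [abs_of_nonneg (by linarith), max_eq_right (by linarith)]
        have eb : tt 1 (u - (((m + 1 : ℕ) : ℝ) + 2)) = u - (m + 2) := by
          unfold tt
          push_cast
          rw [abs_of_nonpos (by linarith), max_eq_right (by linarith)]
          ring
        rw [ea, eb]
        have hm : (0 : ℝ) ≤ m := Nat.cast_nonneg m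
        have := chord (a := m + 2) (s := u - (m + 2)) (by linarith) (by linarith) (by linarith)
        rw [show (m : ℝ) + 2 + (u - (m + 2)) = u by ring] at this
        have e3 : (((m + 1 : ℕ) : ℝ) + 2) = (m : ℝ) + 2 + 1 := by push_cast; ring
        rw [e3]
        have h5 : 0 ≤ 13 / 18 * tt 1 (u - 1 / 2) := mul_nonneg (by norm_num) (tt_nonneg _ _)
        have h6 : 0 ≤ 23 / 36 * tt 1 (u - 1) := mul_nonneg (by norm_num) (tt_nonneg _ _)
        have h7 := hs m u
        linarith

lemma tt_scale {h : ℝ} (hh : 0 < h) (α b : ℝ) : tt h (α - b * h) = h * tt 1 (α / h - b) := by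
  unfold tt
  rw [mul_max_of_nonneg _ _ hh.le, mul_zero, mul_sub, mul_one]
  congr 2
  have : α - b * h = h * (α / h - b) := by field_simp
  rw [this, abs_mul, abs_of_pos hh]

/-- the majorant -/
noncomputable def WW (h : ℝ) (n : ℕ) (α : ℝ) : ℝ :=
  1 / h ^ 3 * (13 / 18 * tt h (α - h / 2) + 23 / 36 * tt h (α - h) +
    ∑ k ∈ Finset.range n, 1 / ((k : ℝ) + 2) ^ 2 * tt h (α - (k + 2) * h))

lemma WW_ge {h : ℝ} (hh : 0 < h) (n : ℕ) {α : ℝ} (h1 : h ≤ α) (h2 : α ≤ (n + 1) * h) :
    1 / α ^ 2 ≤ WW h n α := by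
  have h3 := sq_maj n (α / h) ((one_le_div hh).2 h1) ((div_le_iff₀ hh).2 h2)
  have e1 : tt h (α - h / 2) = h * tt 1 (α / h - 1 / 2) := by
    rw [← tt_scale hh]
    congr 1
    ring
  have e2 : tt h (α - h) = h * tt 1 (α / h - 1) := by
    rw [← tt_scale hh]
    congr 1
    ring
  unfold WW
  rw [e1, e2]
  simp_rw [tt_scale hh]
  have e3 : ∑ k ∈ Finset.range n, 1 / ((k : ℝ) + 2) ^ 2 * (h * tt 1 (α / h - (k + 2))) =
      h * ∑ k ∈ Finset.range n, 1 / ((k : ℝ) + 2) ^ 2 * tt 1 (α / h - (k + 2)) := by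
    rw [Finset.mul_sum]
    exact Finset.sum_congr rfl fun k _ => by ring
  rw [e3]
  have e4 : 1 / h ^ 3 * (13 / 18 * (h * tt 1 (α / h - 1 / 2)) + 23 / 36 * (h * tt 1 (α / h - 1)) +
      h * ∑ k ∈ Finset.range n, 1 / ((k : ℝ) + 2) ^ 2 * tt 1 (α / h - (k + 2))) =
      1 / h ^ 2 * (13 / 18 * tt 1 (α / h - 1 / 2) + 23 / 36 * tt 1 (α / h - 1) +
      ∑ k ∈ Finset.range n, 1 / ((k : ℝ) + 2) ^ 2 * tt 1 (α / h - (k + 2))) := by
    field_simp
  rw [e4]
  have e5 : 1 / α ^ 2 = 1 / h ^ 2 * (1 / (α / h) ^ 2) := by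
    have : 0 < α := by linarith
    field_simp
  rw [e5]
  gcongr

lemma WW_cont (h : ℝ) (n : ℕ) : Continuous (WW h n) := by
  unfold WW
  have := tt_cont h
  fun_prop

/-- the mass of `f` against the tent -/
noncomputable def TM (h : ℝ) (f : ℝ → ℝ) (b : ℝ) : ℝ := ∫ α, tt h (α - b) * f α

lemma tent_int {f : ℝ → ℝ} (hf : Continuous f) (h b : ℝ) :
    Integrable fun α => tt h (α - b) * f α := by
  refine Continuous.integrable_of_hasCompactSupport ?_ ((tt_supp h b).mul_right)
  have := tt_cont h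
  fun_prop

lemma WW_total {f : ℝ → ℝ} (hf : Continuous f) (h : ℝ) (n : ℕ) :
    Integrable (fun α => WW h n α * f α) ∧
    ∫ α, WW h n α * f α = 1 / h ^ 3 * (13 / 18 * TM h f (h / 2) + 23 / 36 * TM h f h +
      ∑ k ∈ Finset.range n, 1 / ((k : ℝ) + 2) ^ 2 * TM h f ((k + 2) * h)) := by
  have i1 := (tent_int hf h (h / 2)).const_mul (13 / 18)
  have i2 := (tent_int hf h h).const_mul (23 / 36)
  have i3 : ∀ k ∈ Finset.range n, Integrable fun α => 1 / ((k : ℝ) + 2) ^ 2 *
      (tt h (α - (k + 2) * h) * f α) := fun k _ =>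
    (tent_int hf h ((k + 2) * h)).const_mul (1 / ((k : ℝ) + 2) ^ 2)
  have i4 := integrable_finsetSum _ i3
  have e : (fun α => WW h n α * f α) = fun α => 1 / h ^ 3 * ((13 / 18 * (tt h (α - h / 2) * f α) +
      23 / 36 * (tt h (α - h) * f α)) + ∑ k ∈ Finset.range n, 1 / ((k : ℝ) + 2) ^ 2 *
      (tt h (α - (k + 2) * h) * f α)) := by
    funext α
    unfold WW
    have : ∑ k ∈ Finset.range n, 1 / ((k : ℝ) + 2) ^ 2 * (tt h (α - (k + 2) * h) * f α) =
        (∑ k ∈ Finset.range n, 1 / ((k : ℝ) + 2) ^ 2 * tt h (α - (k + 2) * h)) * f α := by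
      rw [Finset.sum_mul]
      exact Finset.sum_congr rfl fun k _ => by ring
    rw [this]
    ring
  rw [e]
  have i12 : Integrable fun α => 13 / 18 * (tt h (α - h / 2) * f α) +
      23 / 36 * (tt h (α - h) * f α) := i1.add i2
  refine ⟨(i12.add i4).const_mul _, ?_⟩
  rw [integral_const_mul, integral_add i12 i4, integral_add i1 i2,
    integral_finsetSum _ i3, integral_const_mul, integral_const_mul]
  simp_rw [integral_const_mul]
  rfl

/-- the upper bound for the tail against `α⁻²` -/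
theorem maj {f : ℝ → ℝ} (hf : Continuous f) (f0 : ∀ x, 0 ≤ f x) {h A : ℝ} (hh : 0 < h)
    (hA : ∀ b, TM h f b ≤ A) (n : ℕ) :
    ∫ α in h..((n + 1) * h), 1 / α ^ 2 * f α ≤
      1 / h ^ 3 * ((13 / 18 + 23 / 36 + ∑ k ∈ Finset.range n, 1 / ((k : ℝ) + 2) ^ 2) * A) -
      ∫ α in (-(h / 2))..h, WW h 0 α * f α := by
  obtain ⟨hi, ht⟩ := WW_total hf h n
  have hn : (0 : ℝ) ≤ n := Nat.cast_nonneg n
  have hle : h ≤ (n + 1) * h := by nlinarith
  have hc : Continuous fun α => WW h n α * f α := (WW_cont h n).mul hf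
  have h1 : ∫ α, WW h n α * f α ≤
      1 / h ^ 3 * ((13 / 18 + 23 / 36 + ∑ k ∈ Finset.range n, 1 / ((k : ℝ) + 2) ^ 2) * A) := by
    rw [ht]
    have hs : ∑ k ∈ Finset.range n, 1 / ((k : ℝ) + 2) ^ 2 * TM h f ((k + 2) * h) ≤
        (∑ k ∈ Finset.range n, 1 / ((k : ℝ) + 2) ^ 2) * A := by
      rw [Finset.sum_mul]
      exact Finset.sum_le_sum fun k _ => mul_le_mul_of_nonneg_left (hA _) (by positivity)
    refine mul_le_mul_of_nonneg_left ?_ (by positivity)
    have a1 := hA (h / 2)
    have a2 := hA h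
    nlinarith
  have hW0 : ∀ α, 0 ≤ WW h n α := fun α => by
    unfold WW
    have : ∀ u, 0 ≤ tt h u := tt_nonneg h
    have h2 : 0 ≤ ∑ k ∈ Finset.range n, 1 / ((k : ℝ) + 2) ^ 2 * tt h (α - (k + 2) * h) :=
      Finset.sum_nonneg fun k _ => mul_nonneg (by positivity) (this _)
    have h3 := this (α - h / 2)
    have h4 := this (α - h)
    positivity
  have h2 : ∫ α in (-(h / 2))..((n + 1) * h), WW h n α * f α ≤ ∫ α, WW h n α * f α := by
    rw [intervalIntegral.integral_of_le (by linarith)]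
    exact setIntegral_le_integral hi (ae_of_all _ fun α => mul_nonneg (hW0 α) (f0 α))
  rw [← intervalIntegral.integral_add_adjacent_intervals (b := h) (hc.intervalIntegrable _ _)
    (hc.intervalIntegrable _ _)] at h2
  have h3 : ∫ α in (-(h / 2))..h, WW h 0 α * f α ≤ ∫ α in (-(h / 2))..h, WW h n α * f α := by
    refine intervalIntegral.integral_mono_on (by linarith)
      (((WW_cont h 0).mul hf).intervalIntegrable _ _) (hc.intervalIntegrable _ _) fun α _ => ?_
    apply mul_le_mul_of_nonneg_right _ (f0 α)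
    unfold WW
    apply mul_le_mul_of_nonneg_left _ (by positivity)
    rw [Finset.sum_range_zero]
    have : 0 ≤ ∑ k ∈ Finset.range n, 1 / ((k : ℝ) + 2) ^ 2 * tt h (α - (k + 2) * h) :=
      Finset.sum_nonneg fun k _ => mul_nonneg (by positivity) (tt_nonneg _ _)
    linarith
  have h4 : ∫ α in h..((n + 1) * h), 1 / α ^ 2 * f α ≤ ∫ α in h..((n + 1) * h), WW h n α * f α := by
    refine intervalIntegral.integral_mono_on hle ?_ (hc.intervalIntegrable _ _) fun α hα => ?_
    · apply ContinuousOn.intervalIntegrable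
      rw [uIcc_of_le hle]
      refine ContinuousOn.mul ?_ hf.continuousOn
      refine continuousOn_const.div (by fun_prop) fun α hα => ?_
      have : 0 < α := by linarith [hα.1]
      positivity
    · exact mul_le_mul_of_nonneg_right (WW_ge hh n hα.1 hα.2) (f0 α)
  linarith

/-- the integral over the known part -/
lemma known {f : ℝ → ℝ} (hf : Continuous f) (fe : ∀ x, f (-x) = f x) {h : ℝ} (hh : 0 < h) :
    ∫ α in (-(h / 2))..h, WW h 0 α * f α =
      1 / h ^ 3 * (13 / 12 * h * (∫ α in (0 : ℝ)..h, f α) - 13 / 36 * h * (∫ α in (0 : ℝ)..(h / 2), f α)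
        - 1 / 12 * (∫ α in (0 : ℝ)..h, α * f α) + 13 / 18 * ∫ α in (0 : ℝ)..(h / 2), α * f α) := by
  have hc : Continuous fun α => WW h 0 α * f α := (WW_cont h 0).mul hf
  have hca : Continuous fun α => α * f α := continuous_id.mul hf
  have ii : ∀ {g : ℝ → ℝ}, Continuous g → ∀ a b : ℝ, IntervalIntegrable g volume a b :=
    fun hg a b => hg.intervalIntegrable a b
  rw [← intervalIntegral.integral_add_adjacent_intervals (b := 0) (ii hc _ _) (ii hc _ _),
    ← intervalIntegral.integral_add_adjacent_intervals (a := 0) (b := h / 2) (ii hc _ _) (ii hc _ _)]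
  have e1 : ∫ α in (-(h / 2))..0, WW h 0 α * f α = ∫ α in (0 : ℝ)..(h / 2), WW h 0 (-α) * f α := by
    have := intervalIntegral.integral_comp_neg (a := (0 : ℝ)) (b := h / 2)
      (fun α => WW h 0 α * f α)
    rw [neg_zero] at this
    rw [← this]
    refine intervalIntegral.integral_congr fun α _ => ?_
    show WW h 0 (-α) * f (-α) = _
    rw [fe]
  have e2 : ∫ α in (0 : ℝ)..(h / 2), WW h 0 (-α) * f α =
      ∫ α in (0 : ℝ)..(h / 2), (1 / h ^ 3 * (13 / 18 * (h / 2)) * f α -
        1 / h ^ 3 * (13 / 18) * (α * f α)) := by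
    refine intervalIntegral.integral_congr fun α hα => ?_
    rw [uIcc_of_le (by linarith)] at hα
    obtain ⟨h1, h2⟩ := hα
    show WW h 0 (-α) * f α = _
    unfold WW tt
    rw [Finset.sum_range_zero, abs_of_nonpos (by linarith : -α - h / 2 ≤ 0),
      abs_of_nonpos (by linarith : -α - h ≤ 0), max_eq_right (by linarith),
      max_eq_left (by linarith)]
    ring
  have e3 : ∫ α in (0 : ℝ)..(h / 2), WW h 0 α * f α =
      ∫ α in (0 : ℝ)..(h / 2), (1 / h ^ 3 * (13 / 18 * (h / 2)) * f α +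
        1 / h ^ 3 * (49 / 36) * (α * f α)) := by
    refine intervalIntegral.integral_congr fun α hα => ?_
    rw [uIcc_of_le (by linarith)] at hα
    obtain ⟨h1, h2⟩ := hα
    show WW h 0 α * f α = _
    unfold WW tt
    rw [Finset.sum_range_zero, abs_of_nonpos (by linarith : α - h / 2 ≤ 0),
      abs_of_nonpos (by linarith : α - h ≤ 0), max_eq_right (by linarith),
      max_eq_right (by linarith)]
    ring
  have e4 : ∫ α in (h / 2)..h, WW h 0 α * f α =
      ∫ α in (h / 2)..h, (1 / h ^ 3 * (13 / 12 * h) * f α - 1 / h ^ 3 * (1 / 12) * (α * f α)) := by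
    refine intervalIntegral.integral_congr fun α hα => ?_
    rw [uIcc_of_le (by linarith)] at hα
    obtain ⟨h1, h2⟩ := hα
    show WW h 0 α * f α = _
    unfold WW tt
    rw [Finset.sum_range_zero, abs_of_nonneg (by linarith : 0 ≤ α - h / 2),
      abs_of_nonpos (by linarith : α - h ≤ 0), max_eq_right (by linarith),
      max_eq_right (by linarith)]
    ring
  have s1 : ∀ c d a b : ℝ, ∫ α in a..b, (c * f α + d * (α * f α)) =
      c * (∫ α in a..b, f α) + d * ∫ α in a..b, α * f α := by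
    intro c d a b
    have k1 : Continuous fun α => c * f α := continuous_const.mul hf
    have k2 : Continuous fun α => d * (α * f α) := continuous_const.mul hca
    rw [intervalIntegral.integral_add (ii k1 _ _) (ii k2 _ _), intervalIntegral.integral_const_mul,
      intervalIntegral.integral_const_mul]
  have s2 : ∀ c d a b : ℝ, ∫ α in a..b, (c * f α - d * (α * f α)) =
      c * (∫ α in a..b, f α) - d * ∫ α in a..b, α * f α := by
    intro c d a b
    have k1 : Continuous fun α => c * f α := continuous_const.mul hf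
    have k2 : Continuous fun α => d * (α * f α) := continuous_const.mul hca
    rw [intervalIntegral.integral_sub (ii k1 _ _) (ii k2 _ _), intervalIntegral.integral_const_mul,
      intervalIntegral.integral_const_mul]
  rw [e1, e2, e3, e4, s1, s2, s2]
  have d1 : ∫ α in (h / 2)..h, f α = (∫ α in (0 : ℝ)..h, f α) - ∫ α in (0 : ℝ)..(h / 2), f α := by
    rw [← intervalIntegral.integral_add_adjacent_intervals (a := 0) (b := h / 2) (c := h)
      (ii hf _ _) (ii hf _ _)]
    ring
  have d2 : ∫ α in (h / 2)..h, α * f α =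
      (∫ α in (0 : ℝ)..h, α * f α) - ∫ α in (0 : ℝ)..(h / 2), α * f α := by
    rw [← intervalIntegral.integral_add_adjacent_intervals (a := 0) (b := h / 2) (c := h)
      (ii hca _ _) (ii hca _ _)]
    ring
  rw [d1, d2]
  field_simp
  ring

lemma sum_inv (n : ℕ) : ∑ k ∈ Finset.range n, 1 / ((k : ℝ) + 2) ^ 2 ≤ Real.pi ^ 2 / 6 - 1 := by
  have h := hasSum_zeta_two
  have h1 := sum_le_hasSum (Finset.range (n + 2)) (fun i _ => by positivity) h
  rw [Finset.sum_range_succ', Finset.sum_range_succ'] at h1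
  have e : ∑ k ∈ Finset.range n, 1 / (((k + 1 + 1 : ℕ) : ℝ)) ^ 2 =
      ∑ k ∈ Finset.range n, 1 / ((k : ℝ) + 2) ^ 2 := by
    refine Finset.sum_congr rfl fun k _ => ?_
    push_cast
    congr 2
    ring
  rw [e] at h1
  norm_num at h1
  have e2 : ∑ k ∈ Finset.range n, 1 / ((k : ℝ) + 2) ^ 2 =
      ∑ k ∈ Finset.range n, (((k : ℝ) + 2) ^ 2)⁻¹ := by
    simp
  rw [e2]
  linarith

end Run7.h719.PC
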