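import Pool.Agent.Run7.h719.PC.Psi
import Pool.Agent.Run7.h719.PC.Maj
import Pool.Agent.Run7.h719.PC.Loc

/-!
# Assembly: the deterministic bounds and their limits
-/

open MeasureTheory Set Filter Topology

namespace Run7.h719.PC

lemma inv_sq_int {f : ℝ → ℝ} (hf : Continuous f) {a b : ℝ} (ha : 0 < a) (hab : a ≤ b) :
    IntervalIntegrable (fun α => 1 / α ^ 2 * f α) volume a b := by
  apply ContinuousOn.intervalIntegrable
  rw [uIcc_of_le hab]
  refine ContinuousOn.mul ?_ hf.continuousOn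
  refine continuousOn_const.div (by fun_prop) fun α hα => ?_
  have : 0 < α := by linarith [hα.1]
  positivity

/-- the upper bound over `(h, ∞)` -/
lemma up_Ioi {f : ℝ → ℝ} (hf : Continuous f) (f0 : ∀ x, 0 ≤ f x) {h A : ℝ} (hh : 0 < h)
    (hA0 : 0 ≤ A) (hA : ∀ b, TM h f b ≤ A) :
    IntegrableOn (fun α => 1 / α ^ 2 * f α) (Ioi h) ∧
    ∫ α in Ioi h, 1 / α ^ 2 * f α ≤
      1 / h ^ 3 * ((13 / 36 + Real.pi ^ 2 / 6) * A) - ∫ α in (-(h / 2))..h, WW h 0 α * f α := by
  set U := 1 / h ^ 3 * ((13 / 36 + Real.pi ^ 2 / 6) * A) - ∫ α in (-(h / 2))..h, WW h 0 α * f α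
    with hU
  have h1 : ∀ n : ℕ, ∫ α in h..((n + 1) * h), 1 / α ^ 2 * f α ≤ U := by
    intro n
    refine (maj hf f0 hh hA n).trans ?_
    rw [hU]
    have := sum_inv n
    have h2 : (13 / 18 + 23 / 36 + ∑ k ∈ Finset.range n, 1 / ((k : ℝ) + 2) ^ 2) * A ≤
        (13 / 36 + Real.pi ^ 2 / 6) * A := by
      apply mul_le_mul_of_nonneg_right _ hA0
      linarith
    have h3 : 1 / h ^ 3 * ((13 / 18 + 23 / 36 + ∑ k ∈ Finset.range n, 1 / ((k : ℝ) + 2) ^ 2) * A) ≤
        1 / h ^ 3 * ((13 / 36 + Real.pi ^ 2 / 6) * A) :=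
      mul_le_mul_of_nonneg_left h2 (by positivity)
    linarith
  have hb : Tendsto (fun n : ℕ => ((n : ℝ) + 1) * h) atTop atTop :=
    (tendsto_natCast_atTop_atTop.atTop_add tendsto_const_nhds).atTop_mul_const hh
  have hle : ∀ n : ℕ, h ≤ ((n : ℝ) + 1) * h := fun n => by
    have : (0 : ℝ) ≤ n := Nat.cast_nonneg n
    nlinarith
  have hi : IntegrableOn (fun α => 1 / α ^ 2 * f α) (Ioi h) := by
    refine integrableOn_Ioi_of_intervalIntegral_norm_bounded (l := atTop)
      (b := fun n : ℕ => ((n : ℝ) + 1) * h) U h (fun n => ?_) hb (Eventually.of_forall fun n => ?_)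
    · exact (inv_sq_int hf hh (hle n)).1
    · refine le_trans (le_of_eq ?_) (h1 n)
      refine intervalIntegral.integral_congr fun α _ => ?_
      exact Real.norm_of_nonneg (mul_nonneg (by positivity) (f0 α))
  refine ⟨hi, le_of_tendsto (intervalIntegral_tendsto_integral_Ioi h hi hb) ?_⟩
  exact Eventually.of_forall h1

/-- the lower bound over `(κ, ∞)` -/
lemma low_Ioi {f : ℝ → ℝ} (f0 : ∀ x, 0 ≤ f x) (fe : ∀ x, f (-x) = f x)
    {κ κ' : ℝ} (h0 : 0 < κ) (h1 : κ ≤ κ') (h2 : κ' ≤ 1)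
    (hi : IntegrableOn (fun α => 1 / α ^ 2 * f α) (Ioi κ))
    (hP : Integrable fun α => psi α * f α) :
    1 / 2 * (∫ α, psi α * f α) - (∫ α in (0 : ℝ)..κ, psi α * f α) +
      (∫ α in κ..κ', (1 / α ^ 2 - psi α) * f α) +
      (∫ α in (1 : ℝ)..(3 / 2), (1 / α ^ 2 - psi α) * f α) ≤
    ∫ α in Ioi κ, 1 / α ^ 2 * f α := by
  have hPe : ∫ α, psi α * f α = 2 * ∫ α in Ioi (0 : ℝ), psi α * f α := by
    rw [← integral_comp_abs (f := fun α => psi α * f α)]
    refine integral_congr_ae (ae_of_all _ fun α => ?_)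
    show psi α * f α = psi |α| * f |α|
    rcases le_total 0 α with h | h
    · rw [abs_of_nonneg h]
    · rw [abs_of_nonpos h, psi_even, fe]
  have hs := intervalIntegral.integral_interval_add_Ioi (a := 0) (b := κ) (μ := volume)
    (f := fun α => psi α * f α) hP.integrableOn hP.integrableOn
  have hD : IntegrableOn (fun α => (1 / α ^ 2 - psi α) * f α) (Ioi κ) := by
    have := hi.sub (hP.integrableOn (s := Ioi κ))
    refine this.congr (ae_of_all _ fun α => ?_)
    show 1 / α ^ 2 * f α - psi α * f α = _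
    ring
  have hsplit : ∫ α in Ioi κ, 1 / α ^ 2 * f α =
      (∫ α in Ioi κ, psi α * f α) + ∫ α in Ioi κ, (1 / α ^ 2 - psi α) * f α := by
    rw [← integral_add hP.integrableOn hD]
    refine integral_congr_ae (ae_of_all _ fun α => ?_)
    show 1 / α ^ 2 * f α = psi α * f α + (1 / α ^ 2 - psi α) * f α
    ring
  have hnn : ∀ α ∈ Ioi κ, 0 ≤ (1 / α ^ 2 - psi α) * f α := by
    intro α hα
    have hα0 : 0 < α := lt_trans h0 hα
    exact mul_nonneg (by linarith [psi_le hα0]) (f0 α)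
  have hsub : Ioc κ κ' ∪ Ioc 1 (3 / 2) ⊆ Ioi κ := by
    rintro α (h | h)
    · exact h.1
    · exact lt_of_le_of_lt (h1.trans h2) h.1
  have hge : (∫ α in κ..κ', (1 / α ^ 2 - psi α) * f α) +
      (∫ α in (1 : ℝ)..(3 / 2), (1 / α ^ 2 - psi α) * f α) ≤
      ∫ α in Ioi κ, (1 / α ^ 2 - psi α) * f α := by
    rw [intervalIntegral.integral_of_le h1, intervalIntegral.integral_of_le (by norm_num),
      ← setIntegral_union]
    · refine setIntegral_mono_set hD ?_ hsub.eventuallyLE
      rw [EventuallyLE, ae_restrict_iff' measurableSet_Ioi]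
      exact ae_of_all _ fun α hα => hnn α hα
    · rw [Set.disjoint_left]
      intro α h3 h4
      exact absurd h4.1 (not_lt.2 (h3.2.trans h2))
    · exact measurableSet_Ioc
    · exact hD.mono_set (subset_trans subset_union_left hsub)
    · exact hD.mono_set (subset_trans subset_union_right hsub)
  rw [hsplit]
  linarith

/-- the polynomial part of `ψ` -/
noncomputable def qq (α : ℝ) : ℝ := 7 / 6 - 35 / 48 * α ^ 2 + 7 / 24 * α ^ 3 - α ^ 5 / 96

lemma psi_qq {α : ℝ} (h0 : 0 ≤ α) (h2 : α ≤ 2) : psi α = qq α := psi_small h0 h2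

lemma qq_deriv (x : ℝ) : HasDerivAt qq (-(35 / 24) * x + 7 / 8 * x ^ 2 - 5 / 96 * x ^ 4) x := by
  have hp : ∀ n : ℕ, HasDerivAt (fun t : ℝ => t ^ n) (n * x ^ (n - 1)) x := fun n =>
    hasDerivAt_pow n x
  have := ((((hp 2).const_mul (35 / 48)).const_sub (7 / 6)).add ((hp 3).const_mul (7 / 24))).sub
    ((hp 5).div_const 96)
  exact this.congr_deriv (by push_cast; ring)

lemma qq_cont : Continuous qq := by
  unfold qq
  fun_prop

/-- `∫ α ψ` -/
noncomputable def QQ (x : ℝ) : ℝ := 7 / 12 * x ^ 2 - 35 / 192 * x ^ 4 + 7 / 120 * x ^ 5 - x ^ 7 / 672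

lemma QQ_int (a b : ℝ) : ∫ α in a..b, α * qq α = QQ b - QQ a := by
  have hd : ∀ x ∈ uIcc a b, HasDerivAt QQ (x * qq x) x := by
    intro x _
    have hp : ∀ n : ℕ, HasDerivAt (fun t : ℝ => t ^ n) (n * x ^ (n - 1)) x := fun n =>
      hasDerivAt_pow n x
    have := ((((hp 2).const_mul (7 / 12)).sub ((hp 4).const_mul (35 / 192))).add
      ((hp 5).const_mul (7 / 120))).sub ((hp 7).div_const 672)
    exact this.congr_deriv (by unfold qq; push_cast; ring)
  rw [intervalIntegral.integral_eq_sub_of_hasDerivAt hd]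
  exact (continuous_id.mul qq_cont).intervalIntegrable _ _

lemma inv_log {a b : ℝ} (ha : 0 < a) (hab : a ≤ b) :
    ∫ α in a..b, α * (1 / α ^ 2 - qq α) = Real.log b - Real.log a - (QQ b - QQ a) := by
  have e : ∫ α in a..b, α * (1 / α ^ 2 - qq α) = ∫ α in a..b, (1 / α - α * qq α) := by
    refine intervalIntegral.integral_congr fun α hα => ?_
    rw [uIcc_of_le hab] at hα
    have : 0 < α := by linarith [hα.1]
    show α * (1 / α ^ 2 - qq α) = 1 / α - α * qq α
    field_simp
  have h0 : (0 : ℝ) ∉ uIcc a b := by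
    rw [uIcc_of_le hab]
    exact fun h => absurd h.1 (not_le.2 ha)
  have i2 : IntervalIntegrable (fun α => α * qq α) volume a b :=
    (continuous_id.mul qq_cont).intervalIntegrable _ _
  rw [e, intervalIntegral.integral_sub (by
      apply ContinuousOn.intervalIntegrable
      refine continuousOn_const.div continuousOn_id fun x hx => ?_
      intro h
      exact h0 (h ▸ hx)) i2, QQ_int,
    integral_one_div h0, Real.log_div (by linarith) ha.ne']

/-- the gain from `F ≥ 3/2 - α` on `[1, 3/2]` -/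
lemma gain : (174 / 10000 : ℝ) ≤ ∫ α in (1 : ℝ)..(3 / 2), (1 / α ^ 2 - qq α) * (3 / 2 - α) := by
  have hd : ∀ x ∈ uIcc (1 : ℝ) (3 / 2), HasDerivAt (fun x : ℝ => -(3 / 2) * x⁻¹ - Real.log x -
      (7 / 4 * x - 7 / 12 * x ^ 2 - 35 / 96 * x ^ 3 + (35 / 192 + 7 / 64) * x ^ 4 -
        7 / 120 * x ^ 5 - 1 / 384 * x ^ 6 + 1 / 672 * x ^ 7))
      ((1 / x ^ 2 - qq x) * (3 / 2 - x)) x := by
    intro x hx
    rw [uIcc_of_le (by norm_num)] at hx
    have hx0 : x ≠ 0 := by
      have : 0 < x := by linarith [hx.1]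
      exact this.ne'
    have hp : ∀ n : ℕ, HasDerivAt (fun t : ℝ => t ^ n) (n * x ^ (n - 1)) x := fun n =>
      hasDerivAt_pow n x
    have h1 := ((hasDerivAt_inv hx0).const_mul (-(3 / 2))).sub (Real.hasDerivAt_log hx0)
    have h2 := ((((((hasDerivAt_id x).const_mul (7 / 4)).sub ((hp 2).const_mul (7 / 12))).sub
      ((hp 3).const_mul (35 / 96))).add ((hp 4).const_mul (35 / 192 + 7 / 64))).sub
      ((hp 5).const_mul (7 / 120))).sub ((hp 6).const_mul (1 / 384)) |>.add
      ((hp 7).const_mul (1 / 672))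
    refine (h1.sub h2).congr_deriv ?_
    unfold qq
    push_cast
    field_simp
    ring
  rw [intervalIntegral.integral_eq_sub_of_hasDerivAt hd (by
    apply ContinuousOn.intervalIntegrable
    rw [uIcc_of_le (by norm_num)]
    refine ContinuousOn.mul (ContinuousOn.sub ?_ qq_cont.continuousOn) (by fun_prop)
    refine continuousOn_const.div (by fun_prop) fun α hα => ?_
    have : 0 < α := by linarith [hα.1]
    positivity)]
  rw [Real.log_one]
  have hl : Real.log (3 / 2) ≤ 0.4054651086 := by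
    rw [Real.log_div (by norm_num) (by norm_num)]
    have h3 := Real.log_three_lt_d9
    have h2 := Real.log_two_gt_d9
    linarith
  norm_num
  linarith

end Run7.h719.PC
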