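import Mathlib

/-!
# The kernel `B(t) = (1 - |t|)³ (1 + 3 |t| + t²)` and the weight `ψ`

`B` is supported in `[-1, 1]` and its cosine transform is nonnegative.  The weight
`ψ(α) = (28/3) ∫_0^{1/2} s B(s α) ds` equals `α⁻²` for `|α| ≥ 2` and its cosine transform is
nonnegative as well.
-/

open MeasureTheory Set Filter Topology

namespace Run7.h719.PC

/-- the kernel -/
noncomputable def Bk (t : ℝ) : ℝ := (max 0 (1 - |t|)) ^ 3 * (1 + 3 * |t| + t ^ 2)

lemma Bk_nonneg (t : ℝ) : 0 ≤ Bk t := by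
  unfold Bk
  have := abs_nonneg t
  positivity

lemma Bk_even (t : ℝ) : Bk (-t) = Bk t := by
  unfold Bk
  rw [abs_neg, neg_sq]

lemma Bk_cont : Continuous Bk := by
  unfold Bk
  fun_prop

lemma Bk_eq {t : ℝ} (h0 : 0 ≤ t) (h1 : t ≤ 1) : Bk t = 1 - 5 * t ^ 2 + 5 * t ^ 3 - t ^ 5 := by
  unfold Bk
  rw [abs_of_nonneg h0, max_eq_right (by linarith)]
  ring

lemma Bk_zero {t : ℝ} (h1 : 1 ≤ |t|) : Bk t = 0 := by
  unfold Bk
  rw [max_eq_left (by linarith)]
  ring

lemma Bk_le (t : ℝ) : Bk t ≤ 1 := by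
  rcases le_or_gt 1 |t| with h | h
  · rw [Bk_zero h]; norm_num
  · have e : Bk t = Bk |t| := by
      unfold Bk
      rw [abs_abs, sq_abs]
    rw [e, Bk_eq (abs_nonneg _) h.le]
    have h0 := abs_nonneg t
    have : 0 ≤ 5 * |t| ^ 2 * (1 - |t|) := by
      have : 0 ≤ 1 - |t| := by linarith
      positivity
    have h5 : 0 ≤ |t| ^ 5 := by positivity
    nlinarith

/-- the cosine transform of the kernel on `[0, 1]` -/
lemma Bk_cos {a : ℝ} (ha : a ≠ 0) :
    ∫ t in (0 : ℝ)..1, Bk t * Real.cos (a * t) =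
      60 / a ^ 6 * (2 * Real.sin (a / 2) - a * Real.cos (a / 2)) ^ 2 := by
  have e1 : ∫ t in (0 : ℝ)..1, Bk t * Real.cos (a * t) =
      ∫ t in (0 : ℝ)..1, (1 - 5 * t ^ 2 + 5 * t ^ 3 - t ^ 5) * Real.cos (a * t) := by
    refine intervalIntegral.integral_congr fun t ht => ?_
    rw [uIcc_of_le (by norm_num)] at ht
    show Bk t * _ = _
    rw [Bk_eq ht.1 ht.2]
  rw [e1]
  have hd : ∀ t ∈ uIcc (0 : ℝ) 1, HasDerivAt (fun t : ℝ =>
      (1 - 5 * t ^ 2 + 5 * t ^ 3 - t ^ 5) * (Real.sin (a * t) / a)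
      + (-10 * t + 15 * t ^ 2 - 5 * t ^ 4) * (Real.cos (a * t) / a ^ 2)
      - (-10 + 30 * t - 20 * t ^ 3) * (Real.sin (a * t) / a ^ 3)
      - (30 - 60 * t ^ 2) * (Real.cos (a * t) / a ^ 4)
      + (-120 * t) * (Real.sin (a * t) / a ^ 5)
      + (-120) * (Real.cos (a * t) / a ^ 6))
      ((1 - 5 * t ^ 2 + 5 * t ^ 3 - t ^ 5) * Real.cos (a * t)) t := by
    intro t _
    have hs : HasDerivAt (fun t : ℝ => Real.sin (a * t)) (Real.cos (a * t) * a) t := by
      have := (Real.hasDerivAt_sin (a * t)).comp t ((hasDerivAt_id t).const_mul a)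
      exact this.congr_deriv (by simp)
    have hc : HasDerivAt (fun t : ℝ => Real.cos (a * t)) (-Real.sin (a * t) * a) t := by
      have := (Real.hasDerivAt_cos (a * t)).comp t ((hasDerivAt_id t).const_mul a)
      exact this.congr_deriv (by simp)
    have hp : ∀ n : ℕ, HasDerivAt (fun t : ℝ => t ^ n) (n * t ^ (n - 1)) t := fun n =>
      hasDerivAt_pow n t
    have p0 : HasDerivAt (fun t : ℝ => 1 - 5 * t ^ 2 + 5 * t ^ 3 - t ^ 5)
        (-10 * t + 15 * t ^ 2 - 5 * t ^ 4) t := by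
      have := ((((hp 2).const_mul 5).const_sub 1).add ((hp 3).const_mul 5)).sub (hp 5)
      exact this.congr_deriv (by push_cast; ring)
    have p1 : HasDerivAt (fun t : ℝ => -10 * t + 15 * t ^ 2 - 5 * t ^ 4)
        (-10 + 30 * t - 20 * t ^ 3) t := by
      have := (((hasDerivAt_id t).const_mul (-10)).add ((hp 2).const_mul 15)).sub
        ((hp 4).const_mul 5)
      exact this.congr_deriv (by push_cast; ring)
    have p2 : HasDerivAt (fun t : ℝ => -10 + 30 * t - 20 * t ^ 3) (30 - 60 * t ^ 2) t := by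
      have := (((hasDerivAt_id t).const_mul 30).const_add (-10)).sub ((hp 3).const_mul 20)
      exact this.congr_deriv (by push_cast; ring)
    have p3 : HasDerivAt (fun t : ℝ => 30 - 60 * t ^ 2) (-120 * t) t := by
      have := ((hp 2).const_mul 60).const_sub 30
      exact this.congr_deriv (by push_cast; ring)
    have p4 : HasDerivAt (fun t : ℝ => -120 * t) (-120) t := by
      have := (hasDerivAt_id t).const_mul (-120)
      exact this.congr_deriv (by ring)
    have := (((((p0.mul (hs.div_const a)).add (p1.mul (hc.div_const (a ^ 2)))).sub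
      (p2.mul (hs.div_const (a ^ 3)))).sub (p3.mul (hc.div_const (a ^ 4)))).add
      (p4.mul (hs.div_const (a ^ 5)))).add ((hc.div_const (a ^ 6)).const_mul (-120))
    refine this.congr_deriv ?_
    field_simp
    ring
  rw [intervalIntegral.integral_eq_sub_of_hasDerivAt hd (by
    apply Continuous.intervalIntegrable; fun_prop)]
  have hc2 : Real.cos a = 1 - 2 * Real.sin (a / 2) ^ 2 := by
    have := Real.cos_two_mul (a / 2)
    rw [mul_div_cancel₀ a two_ne_zero] at this
    rw [this, Real.cos_sq']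
    ring
  have hs2 : Real.sin a = 2 * Real.sin (a / 2) * Real.cos (a / 2) := by
    have := Real.sin_two_mul (a / 2)
    rwa [mul_div_cancel₀ a two_ne_zero] at this
  have hsq := Real.sin_sq_add_cos_sq (a / 2)
  simp only [mul_one, mul_zero, Real.sin_zero, Real.cos_zero]
  rw [hc2, hs2]
  have hcs : Real.cos (a / 2) ^ 2 = 1 - Real.sin (a / 2) ^ 2 := by linarith
  have : (2 * Real.sin (a / 2) - a * Real.cos (a / 2)) ^ 2 =
      4 * Real.sin (a / 2) ^ 2 - 4 * a * Real.sin (a / 2) * Real.cos (a / 2) +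
        a ^ 2 * (1 - Real.sin (a / 2) ^ 2) := by
    rw [← hcs]
    ring
  rw [this]
  field_simp
  ring

lemma Bk_int01 : ∫ t in (0 : ℝ)..1, Bk t = 5 / 12 := by
  have e1 : ∫ t in (0 : ℝ)..1, Bk t = ∫ t in (0 : ℝ)..1, (1 - 5 * t ^ 2 + 5 * t ^ 3 - t ^ 5) := by
    refine intervalIntegral.integral_congr fun t ht => ?_
    rw [uIcc_of_le (by norm_num)] at ht
    exact Bk_eq ht.1 ht.2
  rw [e1]
  have hd : ∀ t ∈ uIcc (0 : ℝ) 1, HasDerivAt (fun t : ℝ =>
      t - 5 / 3 * t ^ 3 + 5 / 4 * t ^ 4 - 1 / 6 * t ^ 6)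
      (1 - 5 * t ^ 2 + 5 * t ^ 3 - t ^ 5) t := by
    intro t _
    have hp : ∀ n : ℕ, HasDerivAt (fun t : ℝ => t ^ n) (n * t ^ (n - 1)) t := fun n =>
      hasDerivAt_pow n t
    have := (((hasDerivAt_id t).sub ((hp 3).const_mul (5 / 3))).add ((hp 4).const_mul (5 / 4))).sub
      ((hp 6).const_mul (1 / 6))
    exact this.congr_deriv (by push_cast; ring)
  rw [intervalIntegral.integral_eq_sub_of_hasDerivAt hd (by
    apply Continuous.intervalIntegrable; fun_prop)]
  norm_num

/-- the full transform -/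
noncomputable def Bh (x : ℝ) : ℝ := ∫ t, Bk t * Real.cos (2 * Real.pi * t * x)

lemma Bk_supp : HasCompactSupport Bk := by
  refine HasCompactSupport.of_support_subset_isCompact (isCompact_Icc (a := -1) (b := 1)) ?_
  intro x hx
  by_contra hcon
  apply hx
  apply Bk_zero
  by_contra h2
  push Not at h2
  exact hcon ⟨(abs_lt.1 h2).1.le, (abs_lt.1 h2).2.le⟩

lemma Bk_int : Integrable Bk := Bk_cont.integrable_of_hasCompactSupport Bk_supp

lemma Bh_eq (x : ℝ) : Bh x = 2 * ∫ t in (0 : ℝ)..1, Bk t * Real.cos (2 * Real.pi * x * t) := by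
  unfold Bh
  have hc : Continuous fun t => Bk t * Real.cos (2 * Real.pi * t * x) :=
    Bk_cont.mul (by fun_prop)
  have e1 : ∫ t, Bk t * Real.cos (2 * Real.pi * t * x) =
      ∫ t in (-1 : ℝ)..1, Bk t * Real.cos (2 * Real.pi * t * x) := by
    rw [intervalIntegral.integral_of_le (by norm_num), ← integral_Icc_eq_integral_Ioc]
    symm
    apply setIntegral_eq_integral_of_forall_compl_eq_zero
    intro t ht
    rw [Bk_zero, zero_mul]
    by_contra h2
    push Not at h2
    exact ht ⟨(abs_lt.1 h2).1.le, (abs_lt.1 h2).2.le⟩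
  rw [e1, ← intervalIntegral.integral_add_adjacent_intervals (b := 0) (hc.intervalIntegrable _ _)
    (hc.intervalIntegrable _ _)]
  have e2 : ∫ t in (-1 : ℝ)..0, Bk t * Real.cos (2 * Real.pi * t * x) =
      ∫ t in (0 : ℝ)..1, Bk t * Real.cos (2 * Real.pi * t * x) := by
    have := intervalIntegral.integral_comp_neg (a := (0 : ℝ)) (b := 1)
      (fun t => Bk t * Real.cos (2 * Real.pi * t * x))
    rw [neg_zero] at this
    rw [← this]
    refine intervalIntegral.integral_congr fun t _ => ?_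
    show Bk (-t) * _ = Bk t * _
    rw [Bk_even, show 2 * Real.pi * -t * x = -(2 * Real.pi * t * x) by ring, Real.cos_neg]
  rw [e2, ← two_mul]
  congr 1
  refine intervalIntegral.integral_congr fun t _ => ?_
  show Bk t * _ = Bk t * _
  congr 2
  ring

lemma Bh_nonneg (x : ℝ) : 0 ≤ Bh x := by
  rw [Bh_eq]
  rcases eq_or_ne x 0 with h | h
  · rw [h]
    simp only [mul_zero, zero_mul, Real.cos_zero, mul_one]
    rw [Bk_int01]
    norm_num
  · have ha : 2 * Real.pi * x ≠ 0 := by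
      have := Real.pi_pos
      positivity
    rw [Bk_cos ha]
    positivity

lemma Bh_zero : Bh 0 = 5 / 6 := by
  rw [Bh_eq]
  simp only [mul_zero, zero_mul, Real.cos_zero, mul_one]
  rw [Bk_int01]
  norm_num

lemma Bh_le (x : ℝ) : |Bh x| ≤ 5 / 6 := by
  rw [← Bh_zero]
  unfold Bh
  have h0 : ∀ t : ℝ, Bk t * Real.cos (2 * Real.pi * t * 0) = Bk t := fun t => by simp
  simp_rw [h0]
  refine (abs_integral_le_integral_abs).trans ?_
  refine integral_mono_of_nonneg (ae_of_all _ fun t => abs_nonneg _) Bk_int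
    (ae_of_all _ fun t => ?_)
  show |Bk t * _| ≤ Bk t
  rw [abs_mul, abs_of_nonneg (Bk_nonneg t)]
  exact mul_le_of_le_one_right (Bk_nonneg t) (Real.abs_cos_le_one _)

end Run7.h719.PC
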