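import Pool.Agent.Run7.h719.PC.Asm

/-!
# The abstract theorem
-/

open MeasureTheory Set Filter Topology

namespace Run7.h719.PC

variable {G : ℝ → ℝ → ℝ}

lemma tt_total {f : ℝ → ℝ} (hf : Continuous f) (fe : ∀ x, f (-x) = f x) {h : ℝ} (hh : 0 < h) :
    ∫ α, tt h α * f α = 2 * ∫ α in (0 : ℝ)..h, (h - α) * f α := by
  have e1 : ∫ α, tt h α * f α = 2 * ∫ α in Ioi (0 : ℝ), tt h α * f α := by
    rw [← integral_comp_abs (f := fun α => tt h α * f α)]
    refine integral_congr_ae (ae_of_all _ fun α => ?_)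
    show tt h α * f α = tt h |α| * f |α|
    rcases le_total 0 α with h1 | h1
    · rw [abs_of_nonneg h1]
    · rw [abs_of_nonpos h1, fe]
      unfold tt
      rw [abs_neg]
  have hint : Integrable fun α => tt h α * f α := by
    have := tent_int hf h 0
    simpa using this
  have hs := intervalIntegral.integral_interval_add_Ioi (a := 0) (b := h) (μ := volume)
    (f := fun α => tt h α * f α) hint.integrableOn hint.integrableOn
  have e2 : ∫ α in Ioi h, tt h α * f α = 0 := by
    rw [setIntegral_congr_fun (g := fun _ => (0 : ℝ)) measurableSet_Ioi]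
    · simp
    · intro α hα
      have h1 : h < α := hα
      show tt h α * f α = 0
      unfold tt
      rw [abs_of_pos (by linarith), max_eq_left (by linarith), zero_mul]
  have e3 : ∫ α in (0 : ℝ)..h, tt h α * f α = ∫ α in (0 : ℝ)..h, (h - α) * f α := by
    refine intervalIntegral.integral_congr fun α hα => ?_
    rw [uIcc_of_le hh.le] at hα
    show tt h α * f α = _
    unfold tt
    rw [abs_of_nonneg hα.1, max_eq_right (by linarith [hα.2])]
  rw [e1, ← hs, e2, e3, add_zero]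

lemma gain_low {f : ℝ → ℝ} (hf : Continuous f) {ε : ℝ} (hε : 0 < ε)
    (h : ∀ α ∈ Icc (1 : ℝ) (3 / 2), 3 / 2 - α - ε ≤ f α) :
    174 / 10000 - ε ≤ ∫ α in (1 : ℝ)..(3 / 2), (1 / α ^ 2 - psi α) * f α := by
  have hc1 : ContinuousOn (fun α : ℝ => 1 / α ^ 2 - qq α) (Icc 1 (3 / 2)) := by
    refine ContinuousOn.sub ?_ qq_cont.continuousOn
    refine continuousOn_const.div (by fun_prop) fun α hα => ?_
    have : 0 < α := by linarith [hα.1]
    positivity
  have e1 : ∫ α in (1 : ℝ)..(3 / 2), (1 / α ^ 2 - psi α) * f α =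
      ∫ α in (1 : ℝ)..(3 / 2), (1 / α ^ 2 - qq α) * f α := by
    refine intervalIntegral.integral_congr fun α hα => ?_
    rw [uIcc_of_le (by norm_num)] at hα
    show (1 / α ^ 2 - psi α) * f α = _
    rw [psi_qq (by linarith [hα.1]) (by linarith [hα.2])]
  have e2 : ∫ α in (1 : ℝ)..(3 / 2), ((1 / α ^ 2 - qq α) * (3 / 2 - α) - 2 * ε) ≤
      ∫ α in (1 : ℝ)..(3 / 2), (1 / α ^ 2 - qq α) * f α := by
    refine intervalIntegral.integral_mono_on (by norm_num) ?_ ?_ fun α hα => ?_
    · apply ContinuousOn.intervalIntegrable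
      rw [uIcc_of_le (by norm_num)]
      exact (hc1.mul (by fun_prop)).sub continuousOn_const
    · apply ContinuousOn.intervalIntegrable
      rw [uIcc_of_le (by norm_num)]
      exact hc1.mul hf.continuousOn
    · have h0 : 0 < α := by linarith [hα.1]
      have h1 : 0 ≤ 1 / α ^ 2 - qq α := by
        rw [← psi_qq h0.le (by linarith [hα.2])]
        linarith [psi_le h0]
      have h2 : 1 / α ^ 2 - qq α ≤ 1 := by
        rw [← psi_qq h0.le (by linarith [hα.2])]
        have h3 := psi_nonneg α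
        have h4 : 1 / α ^ 2 ≤ 1 := by
          rw [div_le_one (by positivity)]
          nlinarith [hα.1]
        linarith
      have h5 : (1 / α ^ 2 - qq α) * (3 / 2 - α - ε) ≤ (1 / α ^ 2 - qq α) * f α :=
        mul_le_mul_of_nonneg_left (h α hα) h1
      nlinarith
  have e3 : ∫ α in (1 : ℝ)..(3 / 2), ((1 / α ^ 2 - qq α) * (3 / 2 - α) - 2 * ε) =
      (∫ α in (1 : ℝ)..(3 / 2), (1 / α ^ 2 - qq α) * (3 / 2 - α)) - ε := by
    rw [intervalIntegral.integral_sub (by
      apply ContinuousOn.intervalIntegrable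
      rw [uIcc_of_le (by norm_num)]
      exact hc1.mul (by fun_prop)) (by simp), intervalIntegral.integral_const]
    simp only [smul_eq_mul]
    ring
  have := gain
  rw [e1]
  linarith

theorem two_sided (hG : Fam atTop G) (he : ∀ T α, G T (-α) = G T α)
    (hP : ∀ ε : ℝ, 0 < ε → ∀ᶠ T in atTop, Integrable (fun α => psi α * G T α) ∧
      (1 - ε) * (35 / 9) ≤ ∫ α, psi α * G T α)
    (hB : ∀ ε : ℝ, 0 < ε → ∀ᶠ T in atTop, ∀ α ∈ Icc (1 : ℝ) (3 / 2), 3 / 2 - α - ε ≤ G T α)
    (hT : ∀ h : ℝ, 0 < h → ∀ᶠ T in atTop, ∀ b, TM h (G T) b ≤ ∫ α, tt h α * G T α)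
    {κ : ℝ} (h0 : 0 < κ) (h1 : κ < 1) :
    ∀ᶠ T in atTop, IntegrableOn (fun α => 1 / α ^ 2 * G T α) (Ioi κ) ∧
      Real.log (1 / κ) + 92 / 100 ≤ ∫ α in Ioi κ, 1 / α ^ 2 * G T α ∧
      ∫ α in Ioi κ, 1 / α ^ 2 * G T α ≤ Real.log (1 / κ) + 182 / 100 := by
  obtain ⟨h, hh⟩ : ∃ h : ℝ, h = max ((1 + κ) / 2) (9998 / 10000) := ⟨_, rfl⟩
  have hκ : κ < h := by
    rw [hh]
    exact lt_of_lt_of_le (by linarith) (le_max_left _ _)
  have hge : 9998 / 10000 ≤ h := by rw [hh]; exact le_max_right _ _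
  have hlt : h < 1 := by
    rw [hh]
    exact max_lt (by linarith) (by norm_num)
  have hpos : 0 < h := by linarith
  obtain ⟨η, hη⟩ : ∃ η : ℝ, η = 1 / 100000 := ⟨_, rfl⟩
  have hη0 : 0 < η := by rw [hη]; norm_num
  -- the limits
  have t1 := (hG.tent h hpos hlt).const_mul 2
  have t2 := hG.mass hpos hlt
  have t3 := hG.mass (b := h / 2) (by positivity) (by linarith)
  have t4 := hG.first hpos hlt
  have t5 := hG.first (b := h / 2) (by positivity) (by linarith)
  have hne : ∀ x ∈ Icc κ h, x ≠ 0 := fun x hx => by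
    have : 0 < x := by linarith [hx.1]
    exact this.ne'
  have dinv : ∀ x ∈ Icc κ h, HasDerivAt (fun x : ℝ => 1 / x ^ 2) (-(2 * x) / (x ^ 2) ^ 2) x := by
    intro x hx
    have h2 := hasDerivAt_pow 2 x
    have h3 := (hasDerivAt_const x (1 : ℝ)).div h2 (pow_ne_zero 2 (hne x hx))
    exact h3.congr_deriv (by push_cast; ring)
  have cinv : ContinuousOn (fun x : ℝ => -(2 * x) / (x ^ 2) ^ 2) (Icc κ h) := by
    refine ContinuousOn.div (by fun_prop) (by fun_prop) fun x hx => ?_
    exact pow_ne_zero 2 (pow_ne_zero 2 (hne x hx))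
  have t6 := hG.weight1 h0 hκ hlt dinv cinv
  have t7 := hG.weight1 h0 hκ hlt (w := fun x => 1 / x ^ 2 - qq x)
    (fun x hx => (dinv x hx).sub (qq_deriv x)) (cinv.sub (by fun_prop))
  have t8 := hG.weight0 h0 h1 (w := qq) (fun x _ => qq_deriv x) (by fun_prop)
  have v6 : ∫ α in κ..h, α * (1 / α ^ 2) = Real.log h - Real.log κ := by
    have e : ∫ α in κ..h, α * (1 / α ^ 2) = ∫ α in κ..h, 1 / α := by
      refine intervalIntegral.integral_congr fun α hα => ?_
      rw [uIcc_of_le hκ.le] at hα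
      have := hne α hα
      show α * (1 / α ^ 2) = 1 / α
      field_simp
    have h0' : (0 : ℝ) ∉ uIcc κ h := by
      rw [uIcc_of_le hκ.le]
      exact fun h => absurd h.1 (not_le.2 h0)
    rw [e, integral_one_div h0', Real.log_div hpos.ne' h0.ne']
  rw [v6] at t6
  rw [inv_log h0 hκ.le] at t7
  have v8 : ∫ α in (0 : ℝ)..κ, α * qq α = QQ κ := by
    rw [QQ_int]
    unfold QQ
    ring
  rw [v8] at t8
  have q0 : qq 0 = 7 / 6 := by unfold qq; norm_num
  rw [q0] at t8
  have up : ∀ {g : ℝ → ℝ} {c : ℝ}, Tendsto g atTop (𝓝 c) → ∀ᶠ T in atTop, g T ≤ c + η :=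
    fun ht => ht.eventually (ge_mem_nhds (by linarith))
  have lo : ∀ {g : ℝ → ℝ} {c : ℝ}, Tendsto g atTop (𝓝 c) → ∀ᶠ T in atTop, c - η ≤ g T :=
    fun ht => ht.eventually (le_mem_nhds (by linarith))
  have hlogh : Real.log h ≤ 0 := Real.log_nonpos hpos.le hlt.le
  have hlogh2 : -(3 / 10000) ≤ Real.log h := by
    have := Real.one_sub_inv_le_log_of_pos hpos
    have h2 : h⁻¹ ≤ 10003 / 10000 := by
      rw [inv_le_comm₀ hpos (by norm_num)]
      norm_num
      linarith
    linarith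
  have hlogκ : Real.log (1 / κ) = -Real.log κ := by rw [one_div, Real.log_inv]
  filter_upwards [hG.nn, up t1, lo t2, up t3, up t4, lo t5, up t6, lo t7, up t8, hP η hη0,
    hB η hη0, hT h hpos] with T hn a1 a2 a3 a4 a5 a6 a7 a8 a9 a10 a11
  have hc := hG.cont T
  obtain ⟨a9i, a9⟩ := a9
  rw [tt_total hc (he T) hpos] at a11
  -- the tail
  have hA0 : 0 ≤ 2 * ∫ α in (0 : ℝ)..h, (h - α) * G T α := by
    have : 0 ≤ ∫ α in (0 : ℝ)..h, (h - α) * G T α :=
      intervalIntegral.integral_nonneg hpos.le fun α hα =>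
        mul_nonneg (by linarith [hα.2]) (hn α)
    linarith
  obtain ⟨b1, b2⟩ := up_Ioi hc hn hpos hA0 a11
  rw [known hc (he T) hpos] at b2
  have hi : IntegrableOn (fun α => 1 / α ^ 2 * G T α) (Ioi κ) := by
    rw [← Ioc_union_Ioi_eq_Ioi hκ.le]
    exact ((inv_sq_int hc h0 hκ.le).1).union b1
  have hsum := intervalIntegral.integral_interval_add_Ioi hi b1
  refine ⟨hi, ?_, ?_⟩
  · have b3 := low_Ioi hn (he T) h0 hκ.le hlt.le hi a9i
    have b4 := gain_low hc hη0 a10
    have e1 : ∫ α in (0 : ℝ)..κ, psi α * G T α = ∫ α in (0 : ℝ)..κ, qq α * G T α := by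
      refine intervalIntegral.integral_congr fun α hα => ?_
      rw [uIcc_of_le h0.le] at hα
      show psi α * G T α = _
      rw [psi_qq hα.1 (by linarith [hα.2])]
    have e2 : ∫ α in κ..h, (1 / α ^ 2 - psi α) * G T α =
        ∫ α in κ..h, (1 / α ^ 2 - qq α) * G T α := by
      refine intervalIntegral.integral_congr fun α hα => ?_
      rw [uIcc_of_le hκ.le] at hα
      show (1 / α ^ 2 - psi α) * G T α = _
      rw [psi_qq (by linarith [hα.1]) (by linarith [hα.2])]
    rw [e1, e2] at b3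
    have hQ : QQ h ≤ 4579 / 10000 := by
      unfold QQ
      have p2 : h ^ 2 ≤ 1 := pow_le_one₀ hpos.le hlt.le
      have p4 : 999 / 1000 ≤ h ^ 4 := by
        calc (999 / 1000 : ℝ) ≤ (9998 / 10000) ^ 4 := by norm_num
          _ ≤ h ^ 4 := by gcongr
      have p4' : h ^ 4 ≤ 1 := pow_le_one₀ hpos.le hlt.le
      have e : 7 / 12 * h ^ 2 - 35 / 192 * h ^ 4 + 7 / 120 * h ^ 5 - h ^ 7 / 672 ≤
          7 / 12 - 35 / 192 + 7 / 120 - 1 / 672 := by
        have h3 : 0 ≤ ∫ α in h..1, α * qq α := by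
          refine intervalIntegral.integral_nonneg hlt.le fun α hα => ?_
          have : 0 ≤ α := by linarith [hα.1]
          rw [← psi_qq this (by linarith [hα.2])]
          exact mul_nonneg this (psi_nonneg α)
        rw [QQ_int] at h3
        unfold QQ at h3
        linarith
      refine e.trans ?_
      norm_num
    rw [hlogκ, hη] at *
    linarith
  · rw [← hsum, hlogκ]
    have hπ : Real.pi ^ 2 / 6 ≤ 16450 / 10000 := by
      have h3 := Real.pi_lt_d6
      have h4 := Real.pi_pos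
      nlinarith
    have p3 : 9993 / 10000 ≤ h ^ 3 := by
      calc (9993 / 10000 : ℝ) ≤ (9998 / 10000) ^ 3 := by norm_num
        _ ≤ h ^ 3 := by gcongr
    have p3' : h ^ 3 ≤ 1 := pow_le_one₀ hpos.le hlt.le
    have hinv : 1 / h ^ 3 ≤ 10008 / 10000 := by
      rw [div_le_iff₀ (by positivity)]
      linarith
    have hinv1 : 0 < 1 / h ^ 3 := by positivity
    have c1 : (13 / 36 + Real.pi ^ 2 / 6) * (2 * ∫ α in (0 : ℝ)..h, (h - α) * G T α) ≤
        20062 / 10000 * (13334 / 10000) := by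
      apply mul_le_mul _ _ hA0 (by norm_num)
      · linarith
      · rw [hη] at a1
        linarith
    have s1 : 9996 / 10000 ≤ h ^ 2 := by
      calc (9996 / 10000 : ℝ) ≤ (9998 / 10000) ^ 2 := by norm_num
        _ ≤ h ^ 2 := by gcongr
    have s2 : h ^ 2 ≤ 1 := pow_le_one₀ hpos.le hlt.le
    have c2 : 13 / 12 * (9998 / 10000) * (9997 / 10000) ≤ 13 / 12 * h * ∫ α in (0 : ℝ)..h, G T α := by
      have h6 : 9997 / 10000 ≤ ∫ α in (0 : ℝ)..h, G T α := by
        rw [hη] at a2
        linarith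
      apply mul_le_mul _ h6 (by norm_num) (by positivity)
      linarith
    have c3 : 13 / 36 * h * (∫ α in (0 : ℝ)..(h / 2), G T α) ≤ 13 / 36 * (6251 / 10000) := by
      have h5 : ∫ α in (0 : ℝ)..(h / 2), G T α ≤ 6251 / 10000 := by
        rw [hη] at a3
        have : (1 + (h / 2) ^ 2) / 2 = 1 / 2 + h ^ 2 / 8 := by ring
        linarith
      have h6 : 0 ≤ ∫ α in (0 : ℝ)..(h / 2), G T α :=
        intervalIntegral.integral_nonneg (by positivity) fun α _ => hn α
      apply mul_le_mul _ h5 h6 (by norm_num)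
      linarith
    have c4 : (∫ α in (0 : ℝ)..h, α * G T α) ≤ 3334 / 10000 := by
      rw [hη] at a4
      linarith
    have c5 : 415 / 10000 ≤ ∫ α in (0 : ℝ)..(h / 2), α * G T α := by
      rw [hη] at a5
      have : (h / 2) ^ 3 / 3 = h ^ 3 / 24 := by ring
      rw [this] at a5
      linarith
    have c6 : 1 / h ^ 3 * ((13 / 36 + Real.pi ^ 2 / 6) *
        (2 * ∫ α in (0 : ℝ)..h, (h - α) * G T α)) -
        1 / h ^ 3 * (13 / 12 * h * (∫ α in (0 : ℝ)..h, G T α) -
          13 / 36 * h * (∫ α in (0 : ℝ)..(h / 2), G T α) -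
          1 / 12 * (∫ α in (0 : ℝ)..h, α * G T α) +
          13 / 18 * ∫ α in (0 : ℝ)..(h / 2), α * G T α) ≤ 1819 / 1000 := by
      rw [← mul_sub]
      calc _ ≤ 1 / h ^ 3 * (18165 / 10000) := by
            apply mul_le_mul_of_nonneg_left _ hinv1.le
            linarith
        _ ≤ 10008 / 10000 * (18165 / 10000) := by gcongr
        _ ≤ _ := by norm_num
    rw [hη] at a6
    linarith

end Run7.h719.PC
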