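import Pool.Agent.Run7.h719.PC.Ker

/-!
# The weight `ψ`
-/

open MeasureTheory Set Filter Topology

namespace Run7.h719.PC

/-- the weight `ψ(α) = (28/3) ∫_0^{1/2} s B(s α) ds` -/
noncomputable def psi (α : ℝ) : ℝ := 28 / 3 * ∫ s in (0 : ℝ)..(1 / 2), s * Bk (s * α)

lemma psi_even (α : ℝ) : psi (-α) = psi α := by
  unfold psi
  simp_rw [mul_neg, Bk_even]

lemma psi_nonneg (α : ℝ) : 0 ≤ psi α := by
  unfold psi
  refine mul_nonneg (by norm_num) (intervalIntegral.integral_nonneg (by norm_num) fun s hs => ?_)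
  exact mul_nonneg hs.1 (Bk_nonneg _)

lemma psi_cont : Continuous psi := by
  unfold psi
  refine continuous_const.mul ?_
  refine intervalIntegral.continuous_parametric_intervalIntegral_of_continuous' ?_ _ _
  have := Bk_cont
  show Continuous fun p : ℝ × ℝ => p.2 * Bk (p.2 * p.1)
  fun_prop

lemma poly_int (α c : ℝ) : ∫ s in (0 : ℝ)..c, s * (1 - 5 * (s * α) ^ 2 + 5 * (s * α) ^ 3 - (s * α) ^ 5) =
    c ^ 2 / 2 - 5 * α ^ 2 * c ^ 4 / 4 + α ^ 3 * c ^ 5 - α ^ 5 * c ^ 7 / 7 := by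
  have hd : ∀ t ∈ uIcc (0 : ℝ) c, HasDerivAt (fun s : ℝ =>
      1 / 2 * s ^ 2 - 5 * α ^ 2 / 4 * s ^ 4 + α ^ 3 * s ^ 5 - α ^ 5 / 7 * s ^ 7)
      (t * (1 - 5 * (t * α) ^ 2 + 5 * (t * α) ^ 3 - (t * α) ^ 5)) t := by
    intro t _
    have hp : ∀ n : ℕ, HasDerivAt (fun t : ℝ => t ^ n) (n * t ^ (n - 1)) t := fun n =>
      hasDerivAt_pow n t
    have := ((((hp 2).const_mul (1 / 2)).sub ((hp 4).const_mul (5 * α ^ 2 / 4))).add
      ((hp 5).const_mul (α ^ 3))).sub ((hp 7).const_mul (α ^ 5 / 7))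
    exact this.congr_deriv (by push_cast; ring)
  rw [intervalIntegral.integral_eq_sub_of_hasDerivAt hd (by
    apply Continuous.intervalIntegrable; fun_prop)]
  ring

lemma psi_small {α : ℝ} (h0 : 0 ≤ α) (h2 : α ≤ 2) :
    psi α = 7 / 6 - 35 / 48 * α ^ 2 + 7 / 24 * α ^ 3 - α ^ 5 / 96 := by
  unfold psi
  have e1 : ∫ s in (0 : ℝ)..(1 / 2), s * Bk (s * α) =
      ∫ s in (0 : ℝ)..(1 / 2), s * (1 - 5 * (s * α) ^ 2 + 5 * (s * α) ^ 3 - (s * α) ^ 5) := by
    refine intervalIntegral.integral_congr fun s hs => ?_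
    rw [uIcc_of_le (by norm_num)] at hs
    show s * Bk (s * α) = _
    rw [Bk_eq (mul_nonneg hs.1 h0) (by nlinarith [hs.1, hs.2])]
  rw [e1, poly_int]
  ring

lemma psi_big {α : ℝ} (h2 : 2 ≤ α) : psi α = 1 / α ^ 2 := by
  have h0 : 0 < α := by linarith
  unfold psi
  have hc : Continuous fun s => s * Bk (s * α) := by
    have := Bk_cont
    fun_prop
  have hle : 1 / α ≤ 1 / 2 := by
    rw [div_le_div_iff₀ h0 (by norm_num)]
    linarith
  rw [← intervalIntegral.integral_add_adjacent_intervals (b := 1 / α) (hc.intervalIntegrable _ _)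
    (hc.intervalIntegrable _ _)]
  have e1 : ∫ s in (0 : ℝ)..(1 / α), s * Bk (s * α) =
      ∫ s in (0 : ℝ)..(1 / α), s * (1 - 5 * (s * α) ^ 2 + 5 * (s * α) ^ 3 - (s * α) ^ 5) := by
    refine intervalIntegral.integral_congr fun s hs => ?_
    rw [uIcc_of_le (by positivity)] at hs
    show s * Bk (s * α) = _
    rw [Bk_eq (mul_nonneg hs.1 h0.le) (by
      calc s * α ≤ 1 / α * α := by gcongr; exact hs.2
        _ = 1 := by field_simp)]
  have e2 : ∫ s in (1 / α)..(1 / 2), s * Bk (s * α) = 0 := by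
    rw [intervalIntegral.integral_congr (g := fun _ => (0 : ℝ))]
    · simp
    · intro s hs
      rw [uIcc_of_le hle] at hs
      show s * Bk (s * α) = 0
      have : 1 ≤ s * α := by
        calc (1 : ℝ) = 1 / α * α := by field_simp
          _ ≤ s * α := by gcongr; exact hs.1
      rw [Bk_zero (by rw [abs_of_nonneg (by linarith)]; exact this), mul_zero]
  rw [e1, e2, poly_int]
  field_simp
  ring

/-- `ψ ≤ α⁻²` -/
lemma psi_le {α : ℝ} (h0 : 0 < α) : psi α ≤ 1 / α ^ 2 := by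
  rcases le_total 2 α with h | h
  · exact (psi_big h).le
  · rw [psi_small h0.le h, le_div_iff₀ (by positivity)]
    have h1 : 0 ≤ 2 - α := by linarith
    have e : 1 - (7 / 6 - 35 / 48 * α ^ 2 + 7 / 24 * α ^ 3 - α ^ 5 / 96) * α ^ 2 =
        (2 - α) ^ 4 * (6 + 12 * α + 8 * α ^ 2 + α ^ 3) / 96 := by ring
    have h2 : 0 ≤ (2 - α) ^ 4 * (6 + 12 * α + 8 * α ^ 2 + α ^ 3) / 96 := by positivity
    linarith

lemma psi_le' (α : ℝ) : psi α ≤ 7 / 6 := by
  unfold psi
  have h1 : ∫ s in (0 : ℝ)..(1 / 2), s * Bk (s * α) ≤ ∫ s in (0 : ℝ)..(1 / 2), s := by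
    refine intervalIntegral.integral_mono_on (by norm_num) ?_ ?_ fun s hs => ?_
    · have := Bk_cont
      apply Continuous.intervalIntegrable
      fun_prop
    · exact intervalIntegral.intervalIntegrable_id
    · exact mul_le_of_le_one_right hs.1 (Bk_le _)
  rw [integral_id] at h1
  linarith

lemma comp_cos {s : ℝ} (hs : 0 < s) (x : ℝ) :
    ∫ α, s * Bk (s * α) * Real.cos (2 * Real.pi * α * x) = Bh (x / s) := by
  have h := Measure.integral_comp_mul_left (fun t => Bk t * Real.cos (2 * Real.pi * t * (x / s))) s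
  unfold Bh
  rw [abs_of_pos (inv_pos.2 hs)] at h
  have e : ∀ α : ℝ, s * Bk (s * α) * Real.cos (2 * Real.pi * α * x) =
      s * (Bk (s * α) * Real.cos (2 * Real.pi * (s * α) * (x / s))) := by
    intro α
    rw [mul_assoc]
    congr 3
    field_simp
  simp_rw [e]
  rw [integral_const_mul, h, smul_eq_mul, ← mul_assoc, mul_inv_cancel₀ hs.ne', one_mul]

lemma comp_int {s : ℝ} (hs : 0 < s) (x : ℝ) :
    Integrable fun α => s * Bk (s * α) * Real.cos (2 * Real.pi * α * x) := by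
  have hb : Integrable fun α => s * Bk (s * α) :=
    ((integrable_comp_mul_left_iff Bk hs.ne').2 Bk_int).const_mul s
  refine hb.mul_bdd (c := 1) ?_ (ae_of_all _ fun α => ?_)
  · apply Continuous.aestronglyMeasurable
    fun_prop
  · rw [Real.norm_eq_abs]
    exact Real.abs_cos_le_one _

lemma comp_norm {s : ℝ} (hs : 0 < s) (x : ℝ) :
    ∫ α, ‖s * Bk (s * α) * Real.cos (2 * Real.pi * α * x)‖ ≤ 5 / 6 := by
  have h0 := comp_cos hs 0
  rw [zero_div, Bh_zero] at h0
  rw [← h0]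
  refine integral_mono_of_nonneg (ae_of_all _ fun α => norm_nonneg _) (comp_int hs 0)
    (ae_of_all _ fun α => ?_)
  show ‖s * Bk (s * α) * Real.cos (2 * Real.pi * α * x)‖ ≤ s * Bk (s * α) *
    Real.cos (2 * Real.pi * α * 0)
  rw [mul_zero, Real.cos_zero, mul_one, Real.norm_eq_abs, abs_mul]
  have h1 : 0 ≤ s * Bk (s * α) := mul_nonneg hs.le (Bk_nonneg _)
  rw [abs_of_nonneg h1]
  exact mul_le_of_le_one_right h1 (Real.abs_cos_le_one _)

lemma prod_int (x : ℝ) : Integrable (fun p : ℝ × ℝ =>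
    p.1 * Bk (p.1 * p.2) * Real.cos (2 * Real.pi * p.2 * x))
    ((volume.restrict (Ioc (0 : ℝ) (1 / 2))).prod volume) := by
  have hm : AEStronglyMeasurable (fun p : ℝ × ℝ =>
      p.1 * Bk (p.1 * p.2) * Real.cos (2 * Real.pi * p.2 * x))
      ((volume.restrict (Ioc (0 : ℝ) (1 / 2))).prod volume) := by
    have := Bk_cont
    apply Continuous.aestronglyMeasurable
    fun_prop
  rw [integrable_prod_iff hm]
  constructor
  · rw [ae_restrict_iff' measurableSet_Ioc]
    exact ae_of_all _ fun s hs => comp_int hs.1 x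
  · refine (integrable_const (5 / 6 : ℝ)).mono' hm.norm.integral_prod_right' ?_
    · rw [ae_restrict_iff' measurableSet_Ioc]
      refine ae_of_all _ fun s hs => ?_
      rw [Real.norm_eq_abs, abs_of_nonneg (integral_nonneg fun α => norm_nonneg _)]
      exact comp_norm hs.1 x

lemma psi_cos (α x : ℝ) : psi α * Real.cos (2 * Real.pi * α * x) =
    28 / 3 * ∫ s in Ioc (0 : ℝ) (1 / 2), s * Bk (s * α) * Real.cos (2 * Real.pi * α * x) := by
  unfold psi
  rw [intervalIntegral.integral_of_le (by norm_num), mul_assoc, ← integral_mul_const]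

lemma psi_int : Integrable psi := by
  have h := ((prod_int 0).swap).integral_prod_left
  have := h.const_mul (28 / 3)
  refine this.congr (ae_of_all _ fun α => ?_)
  have h2 := psi_cos α 0
  rw [mul_zero, Real.cos_zero, mul_one] at h2
  rw [h2]
  simp

/-- the transform of `ψ` -/
lemma psi_fl (x : ℝ) : ∫ α, psi α * Real.cos (2 * Real.pi * α * x) =
    28 / 3 * ∫ s in Ioc (0 : ℝ) (1 / 2), Bh (x / s) := by
  simp_rw [psi_cos]
  rw [integral_const_mul]
  congr 1
  rw [← integral_integral_swap (f := fun s α => s * Bk (s * α) * Real.cos (2 * Real.pi * α * x))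
    (prod_int x)]
  refine setIntegral_congr_fun measurableSet_Ioc fun s hs => ?_
  exact comp_cos hs.1 x

lemma psi_fl_nonneg (x : ℝ) : 0 ≤ ∫ α, psi α * Real.cos (2 * Real.pi * α * x) := by
  rw [psi_fl]
  exact mul_nonneg (by norm_num) (integral_nonneg fun s => Bh_nonneg _)

lemma psi_total : ∫ α, psi α = 35 / 9 := by
  have h := psi_fl 0
  simp only [mul_zero, Real.cos_zero, mul_one, zero_div, Bh_zero] at h
  rw [h]
  rw [setIntegral_const]
  simp
  norm_num

end Run7.h719.PC
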